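import Mathlib

/-! Matrices of finite order and finite sets of polynomials. -/

set_option autoImplicit false
set_option linter.all false

namespace Pool.Agent.Q92.DS

open Polynomial

section

variable {k : Type*} [Field k] {n : ℕ}

/-- eigenvalues of matrices of finite order -/
theorem root_pow [IsAlgClosed k] (M : Matrix (Fin n) (Fin n) k) (D : ℕ) (hM : M ^ D = 1) {r : k}
    (hr : r ∈ M.charpoly.roots) : r ^ D = 1 := by
  have hroot : M.charpoly.IsRoot r := (mem_roots M.charpoly_monic.ne_zero).1 hr
  have h3 : Module.End.HasEigenvalue (Matrix.toLin' M) r := by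
    rw [Module.End.hasEigenvalue_iff_isRoot_charpoly, Matrix.charpoly_toLin']
    exact hroot
  obtain ⟨v, hv, hv0⟩ := h3.exists_hasEigenvector
  rw [Module.End.mem_eigenspace_iff, Matrix.toLin'_apply] at hv
  have h4 : ∀ m : ℕ, (M ^ m).mulVec v = r ^ m • v := by
    intro m
    induction m with
    | zero => rw [pow_zero, pow_zero, one_smul, Matrix.one_mulVec]
    | succ m ih => rw [pow_succ, ← Matrix.mulVec_mulVec, hv, Matrix.mulVec_smul, ih, smul_smul, pow_succ, mul_comm]
  have h5 := h4 D
  rw [hM, Matrix.one_mulVec] at h5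
  have h6 : (r ^ D - 1) • v = 0 := by rw [sub_smul, one_smul, ← h5, sub_self]
  rcases smul_eq_zero.1 h6 with h | h
  · exact sub_eq_zero.1 h
  · exact absurd h hv0

/-- the characteristic polynomial of a matrix of finite order -/
theorem charpoly_dvd (M : Matrix (Fin n) (Fin n) k) (D : ℕ) (hM : M ^ D = 1) :
    M.charpoly ∣ (X ^ D - 1) ^ n := by
  let j := algebraMap k (AlgebraicClosure k)
  have h0 : (M.map j).charpoly ∣ (X ^ D - 1) ^ n := by
    have hM' : (M.map j) ^ D = 1 := by
      have : (M.map j) = j.mapMatrix M := rfl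
      rw [this, ← map_pow, hM, map_one]
    have hs := IsAlgClosed.splits (M.map j).charpoly
    have h1 := hs.eq_prod_roots_of_monic (M.map j).charpoly_monic
    have h2 : (M.map j).charpoly.roots.card = n := by
      rw [← hs.natDegree_eq_card_roots, Matrix.charpoly_natDegree_eq_dim, Fintype.card_fin]
    have h3 : ∀ s : Multiset (AlgebraicClosure k), (∀ r ∈ s, r ^ D = 1) →
        (s.map fun a => X - C a).prod ∣ (X ^ D - 1) ^ s.card := by
      intro s
      induction s using Multiset.induction_on with
      | empty => intro _; simp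
      | cons a s ih =>
        intro h
        rw [Multiset.map_cons, Multiset.prod_cons, Multiset.card_cons, pow_succ, mul_comm]
        refine mul_dvd_mul (ih fun r hr => h r (Multiset.mem_cons_of_mem hr)) ?_
        rw [dvd_iff_isRoot, IsRoot.def, eval_sub, eval_pow, eval_X, eval_one,
          h a (Multiset.mem_cons_self a s), sub_self]
    rw [h1]
    refine (h3 _ fun r hr => root_pow _ D hM' hr).trans ?_
    rw [h2]
  rw [Matrix.charpoly_map] at h0
  have h4 : ((X ^ D - 1) ^ n : (AlgebraicClosure k)[X]) = ((X ^ D - 1) ^ n : k[X]).map j := by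
    simp
  rw [h4] at h0
  exact (Polynomial.map_dvd_map' j).1 h0

/-- a matrix of finite order prime to the characteristic is determined to be `1` by its characteristic
polynomial -/
theorem eq_one (M : Matrix (Fin n) (Fin n) k) (D : ℕ) (hM : M ^ D = 1) (hD : (D : k) ≠ 0)
    (hc : M.charpoly = (X - 1) ^ n) : M = 1 := by
  have h1 : (X - 1 : k[X]) ∣ X ^ D - 1 := by
    have := sub_dvd_pow_sub_pow (X : k[X]) 1 D
    rwa [one_pow] at this
  obtain ⟨Φ, hΦ⟩ := h1
  have h2 : Φ.eval 1 = D := by
    have h3 := congrArg (fun p => (derivative p).eval 1) hΦ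
    simp only [derivative_mul, derivative_sub, derivative_X_pow, derivative_one, derivative_X, eval_add,
      eval_mul, eval_sub, eval_X, eval_one, sub_zero, sub_self, zero_mul, add_zero, one_mul, eval_C,
      eval_pow, one_pow, mul_one, map_natCast, eval_natCast] at h3
    exact h3.symm
  have hcop : IsCoprime ((X - 1 : k[X]) ^ n) Φ := by
    apply IsCoprime.pow_left
    have hirr : Irreducible (X - 1 : k[X]) := by
      have := Polynomial.irreducible_X_sub_C (1 : k)
      rwa [map_one] at this
    rw [hirr.coprime_iff_not_dvd]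
    intro hdvd
    have h4 : (X - C (1:k)) ∣ Φ := by rwa [map_one]
    rw [dvd_iff_isRoot, IsRoot.def, h2] at h4
    exact hD h4
  obtain ⟨u, v, huv⟩ := hcop
  have h5 : aeval M ((X - 1 : k[X]) ^ n) = 0 := by
    rw [← hc]; exact Matrix.aeval_self_charpoly M
  have h6 : aeval M ((X - 1) * Φ) = 0 := by
    rw [← hΦ, map_sub, map_pow, aeval_X, map_one, hM, sub_self]
  have h7 : aeval M (X - 1 : k[X]) = 0 := by
    have : (X - 1 : k[X]) = (X - 1) * u * (X - 1) ^ n + v * ((X - 1) * Φ) := by
      calc (X - 1 : k[X]) = (X - 1) * (u * (X - 1) ^ n + v * Φ) := by rw [huv, mul_one]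
        _ = _ := by ring
    rw [this, map_add, map_mul, map_mul _ v, h5, h6, mul_zero, mul_zero, add_zero]
  rw [map_sub, aeval_X, map_one, sub_eq_zero] at h7
  exact h7

end

section

variable {R : Type*} [CommRing R] [IsDomain R]

/-- a polynomial has only finitely many monic divisors -/
theorem finite_monic (Q : R[X]) (hQ : Q ≠ 0) : {P : R[X] | P.Monic ∧ P ∣ Q}.Finite := by
  classical
  let j : R →+* AlgebraicClosure (FractionRing R) :=
    (algebraMap (FractionRing R) _).comp (algebraMap R (FractionRing R))
  have hj : Function.Injective j :=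
    (algebraMap (FractionRing R) (AlgebraicClosure (FractionRing R))).injective.comp
      (IsFractionRing.injective R (FractionRing R))
  have hfin : (Set.Iic (Q.map j).roots).Finite := Set.finite_Iic _
  refine Set.Finite.of_finite_image (f := fun P : R[X] => (P.map j).roots) (hfin.subset ?_) ?_
  · rintro _ ⟨P, ⟨hP, hPQ⟩, rfl⟩
    have hQ' : Q.map j ≠ 0 := (Polynomial.map_ne_zero_iff hj).2 hQ
    exact Polynomial.roots.le_of_dvd hQ' (Polynomial.map_dvd j hPQ)
  · rintro P ⟨hP, _⟩ P' ⟨hP', _⟩ h
    apply Polynomial.map_injective j hj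
    rw [(IsAlgClosed.splits (P.map j)).eq_prod_roots_of_monic (hP.map j),
      (IsAlgClosed.splits (P'.map j)).eq_prod_roots_of_monic (hP'.map j)]
    have h' : (P.map j).roots = (P'.map j).roots := h
    rw [h']

end

end Pool.Agent.Q92.DS
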