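import Pool.Agent.Q92.DS.Null
import Pool.Agent.Q92.DS.Fin

/-! The core of the Deligne-Serre argument: representations of a profinite group over infinitely many
residue fields, with images of bounded order and characteristic polynomials at Frobenius elements which
come from characteristic zero, come from a representation in characteristic zero. -/

set_option autoImplicit false
set_option linter.all false

namespace Pool.Agent.Q92.DS

open Polynomial Filter

section

variable {G : Type*} [Group G] [TopologicalSpace G] [IsTopologicalGroup G]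
  {V : Type*} (Fr : V → Set G) (hne : ∀ v, (Fr v).Nonempty)
  (hdense : ∀ (U : Subgroup G), U.Normal → IsOpen (U : Set G) → ∀ (S : Finset V) (g : G),
    ∃ v, v ∉ S ∧ ∃ σ ∈ Fr v, ∃ τ : G, τ * σ * τ⁻¹ * g⁻¹ ∈ U)
  {R : Type} [CommRing R] [IsDomain R] [CharZero R]
  {I : Type} [Infinite I] {k : I → Type} [∀ i, Field (k i)] (φ : ∀ i, R →+* k i)
  (hφ : ∀ d : R, d ≠ 0 → ∀ᶠ i in cofinite, φ i d ≠ 0)
  {n : ℕ} (ρ : ∀ i, G →* GL (Fin n) (k i)) (hopen : ∀ i, IsOpen ((ρ i).ker : Set G))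
  (A : ℕ) (hA : ∀ᶠ i in cofinite, Finite (G ⧸ (ρ i).ker) ∧ Nat.card (G ⧸ (ρ i).ker) ≤ A)
  (S : Finset V) (B : I → Finset V) (hB : ∀ v, ∀ᶠ i in cofinite, v ∉ B i)
  (P : V → R[X]) (hmonic : ∀ v, v ∉ S → (P v).Monic)
  (hmatch : ∀ i v, v ∉ S → v ∉ B i → ∀ σ ∈ Fr v,
    (ρ i σ : Matrix (Fin n) (Fin n) (k i)).charpoly = (P v).map (φ i))

/-- elements which vanish in infinitely many residue fields are zero -/
theorem zero_of_often {R : Type} [CommRing R] {I : Type} [Infinite I] {k : I → Type}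
    [∀ i, Field (k i)] (φ : ∀ i, R →+* k i)
    (hφ : ∀ d : R, d ≠ 0 → ∀ᶠ i in cofinite, φ i d ≠ 0) (d : R) (h : ∀ᶠ i in cofinite, φ i d = 0) :
    d = 0 := by
  by_contra hd
  obtain ⟨i, h1, h2⟩ := (h.and (hφ d hd)).exists
  exact h2 h1

theorem poly_of_often {R : Type} [CommRing R] {I : Type} [Infinite I] {k : I → Type}
    [∀ i, Field (k i)] (φ : ∀ i, R →+* k i)
    (hφ : ∀ d : R, d ≠ 0 → ∀ᶠ i in cofinite, φ i d ≠ 0) (Q : R[X])
    (h : ∀ᶠ i in cofinite, Q.map (φ i) = 0) : Q = 0 := by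
  ext m
  rw [coeff_zero]
  refine zero_of_often φ hφ _ (h.mono fun i hi => ?_)
  rw [← coeff_map, hi, coeff_zero]

theorem pow_fact {H : Type*} [Group H] (f : G →* H) (A : ℕ)
    (h : Finite (G ⧸ f.ker) ∧ Nat.card (G ⧸ f.ker) ≤ A) (g : G) : (f g) ^ A.factorial = 1 := by
  haveI := h.1
  have h1 : (f g) ^ Nat.card (G ⧸ f.ker) = 1 := by
    rw [← map_pow, ← MonoidHom.mem_ker, ← QuotientGroup.eq_one_iff, QuotientGroup.mk_pow]
    exact pow_card_eq_one'
  obtain ⟨c, hc⟩ := Nat.dvd_factorial Nat.card_pos h.2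
  rw [hc, pow_mul, h1, one_pow]

include hne hφ hA hB hmonic hmatch in
/-- the characteristic polynomials divide a fixed polynomial -/
theorem dvd_fixed (v : V) (hv : v ∉ S) : P v ∣ (X ^ A.factorial - 1) ^ n := by
  obtain ⟨σ, hσ⟩ := hne v
  rw [← modByMonic_eq_zero_iff_dvd (hmonic v hv)]
  refine poly_of_often φ hφ _ ?_
  filter_upwards [hA, hB v] with i hi hvi
  have h1 := hmatch i v hv hvi σ hσ
  have h2 := charpoly_dvd (ρ i σ : Matrix (Fin n) (Fin n) (k i)) A.factorial (by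
    rw [← Units.val_pow_eq_pow_val, pow_fact (ρ i) A hi σ, Units.val_one])
  rw [map_modByMonic _ (hmonic v hv), modByMonic_eq_zero_iff_dvd ((hmonic v hv).map _), ← h1]
  simpa using h2

include hφ in
/-- finitely many polynomials are separated by almost all residue fields -/
theorem separated (Z : Set R[X]) (hZ : Z.Finite) :
    ∀ᶠ i in cofinite, ∀ Q ∈ Z, ∀ Q' ∈ Z, Q.map (φ i) = Q'.map (φ i) → Q = Q' := by
  rw [eventually_all_finite hZ]
  intro Q _
  rw [eventually_all_finite hZ]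
  intro Q' _
  by_cases h : Q = Q'
  · exact Filter.Eventually.of_forall fun _ _ => h
  · have h1 : Q - Q' ≠ 0 := sub_ne_zero.2 h
    obtain ⟨m, hm⟩ : ∃ m, (Q - Q').coeff m ≠ 0 := by
      by_contra hcon
      push Not at hcon
      exact h1 (by ext m; rw [hcon, coeff_zero])
    filter_upwards [hφ _ hm] with i hi h2
    exfalso
    apply hi
    rw [← coeff_map, Polynomial.map_sub, h2, sub_self, coeff_zero]

include hne hdense hφ hopen hA hB hmonic hmatch in
/-- almost all of the representations have the same kernel -/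
theorem kernels : ∃ U : Subgroup G, U.Normal ∧ IsOpen (U : Set G) ∧ Finite (G ⧸ U) ∧
    ∀ᶠ i in cofinite, (ρ i).ker = U := by
  classical
  set D := A.factorial with hD
  have hD0 : (D : R) ≠ 0 := by
    rw [hD]; exact_mod_cast Nat.factorial_ne_zero A
  have hQ : ((X ^ D - 1) ^ n : R[X]) ≠ 0 := by
    apply pow_ne_zero
    have h0 : 0 < D := Nat.factorial_pos A
    exact (monic_X_pow_sub_C (1 : R) h0.ne').ne_zero ∘ (by rw [map_one]; exact id)
  set Z : Set R[X] := {Q | Q.Monic ∧ Q ∣ (X ^ D - 1) ^ n} with hZ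
  have hZfin : Z.Finite := finite_monic _ hQ
  have hsep := separated φ hφ Z hZfin
  have h1Z : ((X - 1) ^ n : R[X]) ∈ Z := by
    refine ⟨?_, ?_⟩
    · have := (monic_X_sub_C (1 : R)).pow n
      rwa [map_one] at this
    · apply pow_dvd_pow_of_dvd
      have := sub_dvd_pow_sub_pow (X : R[X]) 1 D
      rwa [one_pow] at this
  have hPZ : ∀ v, v ∉ S → P v ∈ Z := fun v hv =>
    ⟨hmonic v hv, dvd_fixed Fr hne φ hφ ρ A hA S B hB P hmonic hmatch v hv⟩
  have key : ∀ᶠ i in cofinite, (φ i D ≠ 0) ∧ (Finite (G ⧸ (ρ i).ker) ∧ Nat.card (G ⧸ (ρ i).ker) ≤ A) ∧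
      (∀ Q ∈ Z, ∀ Q' ∈ Z, Q.map (φ i) = Q'.map (φ i) → Q = Q') :=
    (hφ _ hD0).and (hA.and hsep)
  have hle : ∀ i j, ((φ i D ≠ 0) ∧ (Finite (G ⧸ (ρ i).ker) ∧ Nat.card (G ⧸ (ρ i).ker) ≤ A) ∧
      (∀ Q ∈ Z, ∀ Q' ∈ Z, Q.map (φ i) = Q'.map (φ i) → Q = Q')) →
      ((φ j D ≠ 0) ∧ (Finite (G ⧸ (ρ j).ker) ∧ Nat.card (G ⧸ (ρ j).ker) ≤ A) ∧
      (∀ Q ∈ Z, ∀ Q' ∈ Z, Q.map (φ j) = Q'.map (φ j) → Q = Q')) →
      (ρ i).ker ≤ (ρ j).ker := by
    intro i j hi hj g hg
    have hg' : ρ i g = 1 := hg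
    obtain ⟨v, hv, σ, hσ, τ, hτ⟩ := hdense ((ρ i).ker ⊓ (ρ j).ker) inferInstance
      (by rw [Subgroup.coe_inf]; exact (hopen i).inter (hopen j)) (S ∪ B i ∪ B j) g
    rw [Finset.notMem_union, Finset.notMem_union] at hv
    obtain ⟨⟨hvS, hvi⟩, hvj⟩ := hv
    have hconj : ∀ l, (τ * σ * τ⁻¹ * g⁻¹ ∈ (ρ l).ker) →
        (ρ l g : Matrix (Fin n) (Fin n) (k l)).charpoly =
          (ρ l σ : Matrix (Fin n) (Fin n) (k l)).charpoly := by
      intro l hl
      have h1 : ρ l (τ * σ * τ⁻¹) = ρ l g := by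
        have : ρ l (τ * σ * τ⁻¹ * g⁻¹) = 1 := hl
        rwa [map_mul, map_inv, mul_inv_eq_one] at this
      rw [← h1, map_mul, map_mul, map_inv]
      have := Matrix.charpoly_units_conj (ρ l τ) (ρ l σ : Matrix (Fin n) (Fin n) (k l))
      rw [Units.val_mul, Units.val_mul]
      rw [← this, Matrix.coe_units_inv]
    have h1 := hconj i hτ.1
    have h2 := hconj j hτ.2
    rw [hmatch i v hvS hvi σ hσ, hg', Units.val_one] at h1
    rw [hmatch j v hvS hvj σ hσ] at h2
    have h3 : (P v) = (X - 1) ^ n := by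
      refine hi.2.2 _ (hPZ v hvS) _ h1Z ?_
      rw [← h1, Matrix.charpoly_one, Fintype.card_fin]
      simp
    rw [h3] at h2
    have h4 := eq_one (ρ j g : Matrix (Fin n) (Fin n) (k j)) D (by
      rw [← Units.val_pow_eq_pow_val, pow_fact (ρ j) A hj.2.1 g, Units.val_one])
      (by have := hj.1; rwa [map_natCast] at this) (by rw [h2]; simp)
    show ρ j g = 1
    exact Units.ext h4
  obtain ⟨i₀, hi₀⟩ := key.exists
  refine ⟨(ρ i₀).ker, inferInstance, hopen i₀, hi₀.2.1.1, key.mono fun i hi => ?_⟩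
  exact le_antisymm (hle i i₀ hi hi₀) (hle i₀ i hi₀ hi)

end

section rep

variable {G : Type*} [Group G] [TopologicalSpace G]
  {R : Type} [CommRing R] [IsDomain R]
  {I : Type} [Infinite I] {k : I → Type} [∀ i, Field (k i)] (φ : ∀ i, R →+* k i)
  (hφ : ∀ d : R, d ≠ 0 → ∀ᶠ i in cofinite, φ i d ≠ 0)
  {n : ℕ} (ρ : ∀ i, G →* GL (Fin n) (k i))

/-- the value of a polynomial function at a matrix -/
noncomputable def ev {S : Type*} [CommRing S] (f : R →+* S) (M : Matrix (Fin n) (Fin n) S)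
    (q : MvPolynomial (Fin n × Fin n) R) : S :=
  MvPolynomial.eval₂ f (fun ab => M ab.1 ab.2) q

include hφ in
/-- **Existence of the representation in characteristic zero.** -/
theorem exists_rep (U : Subgroup G) [U.Normal] (hU : IsOpen (U : Set G)) [Finite (G ⧸ U)]
    (hk : ∀ᶠ i in cofinite, (ρ i).ker = U)
    {Ω : Type*} [Field Ω] [IsAlgClosed Ω] (ι : R →+* Ω) (hι : Function.Injective ι) :
    ∃ r : G →* GL (Fin n) Ω, U ≤ r.ker ∧ ∀ (g : G) (q : MvPolynomial (Fin n × Fin n) R),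
      (∀ᶠ i in cofinite, ev (φ i) (ρ i g : Matrix (Fin n) (Fin n) (k i)) q = 0) →
      ev ι (r g : Matrix (Fin n) (Fin n) Ω) q = 0 := by
  classical
  -- the equations
  let Y : G ⧸ U → Fin n → Fin n → MvPolynomial ((G ⧸ U) × (Fin n × Fin n)) R :=
    fun γ a b => MvPolynomial.X (γ, (a, b))
  let Fmul : Set (MvPolynomial ((G ⧸ U) × (Fin n × Fin n)) R) :=
    {f | ∃ (γ γ' : G ⧸ U) (a b : Fin n), f = (∑ c, Y γ a c * Y γ' c b) - Y (γ * γ') a b}
  let Fone : Set (MvPolynomial ((G ⧸ U) × (Fin n × Fin n)) R) :=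
    {f | ∃ (a b : Fin n), f = Y 1 a b - MvPolynomial.C ((1 : Matrix (Fin n) (Fin n) R) a b)}
  let Fcond : Set (MvPolynomial ((G ⧸ U) × (Fin n × Fin n)) R) :=
    {f | ∃ (g : G) (q : MvPolynomial (Fin n × Fin n) R),
      (∀ᶠ i in cofinite, ev (φ i) (ρ i g : Matrix (Fin n) (Fin n) (k i)) q = 0) ∧
      f = MvPolynomial.rename (fun ab => ((QuotientGroup.mk g : G ⧸ U), ab)) q}
  -- the solutions
  let rep : G ⧸ U → G := Quotient.out
  have hrep : ∀ (i : I), (ρ i).ker = U → ∀ g : G, ρ i (rep (QuotientGroup.mk g)) = ρ i g := by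
    intro i hi g
    have h1 : (rep (QuotientGroup.mk g))⁻¹ * g ∈ U := by
      rw [← QuotientGroup.eq]; exact QuotientGroup.out_eq' _
    have h2 : ρ i ((rep (QuotientGroup.mk g))⁻¹ * g) = 1 := hi.ge h1
    rwa [map_mul, map_inv, inv_mul_eq_one] at h2
  let pt : ∀ i : I, (G ⧸ U) × (Fin n × Fin n) → k i := fun i x =>
    (ρ i (rep x.1) : Matrix (Fin n) (Fin n) (k i)) x.2.1 x.2.2
  have hsol : ∀ f ∈ Fmul ∪ Fone ∪ Fcond, ∀ᶠ i in cofinite, MvPolynomial.eval₂ (φ i) (pt i) f = 0 := by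
    rintro f ((⟨γ, γ', a, b, rfl⟩ | ⟨a, b, rfl⟩) | ⟨g, q, hq, rfl⟩)
    · filter_upwards [hk] with i hi
      have h1 : ρ i (rep (γ * γ')) = ρ i (rep γ) * ρ i (rep γ') := by
        have e : γ * γ' = QuotientGroup.mk (rep γ * rep γ') := by
          rw [QuotientGroup.mk_mul]
          congr 1
          · exact (QuotientGroup.out_eq' γ).symm
          · exact (QuotientGroup.out_eq' γ').symm
        rw [e, hrep i hi, map_mul]
      rw [MvPolynomial.eval₂_sub, MvPolynomial.eval₂_sum]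
      simp only [Y, MvPolynomial.eval₂_mul, MvPolynomial.eval₂_X, pt]
      rw [h1, Units.val_mul, Matrix.mul_apply, sub_self]
    · filter_upwards [hk] with i hi
      have h1 : ρ i (rep 1) = 1 := by
        have := hrep i hi 1
        rwa [map_one] at this
      rw [MvPolynomial.eval₂_sub, MvPolynomial.eval₂_C]
      simp only [Y, MvPolynomial.eval₂_X, pt]
      rw [h1, Units.val_one, Matrix.one_apply, Matrix.one_apply]
      split_ifs <;> simp
    · filter_upwards [hk, hq] with i hi hqi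
      rw [MvPolynomial.eval₂_rename]
      have e : (pt i ∘ fun ab : Fin n × Fin n => ((QuotientGroup.mk g : G ⧸ U), ab)) =
          fun ab => (ρ i g : Matrix (Fin n) (Fin n) (k i)) ab.1 ab.2 := by
        funext ab
        show (ρ i (rep (QuotientGroup.mk g)) : Matrix (Fin n) (Fin n) (k i)) ab.1 ab.2 = _
        rw [hrep i hi]
      rw [e]
      exact hqi
  haveI : Finite ((G ⧸ U) × (Fin n × Fin n)) := inferInstance
  have hG : ∃ (G' : Type) (e : (G ⧸ U) ≃ G'), True := by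
    haveI := Fintype.ofFinite (G ⧸ U)
    exact ⟨Fin (Fintype.card (G ⧸ U)), Fintype.equivFin _, trivial⟩
  obtain ⟨G', e, -⟩ := hG
  haveI : Finite G' := Finite.of_equiv _ e
  let e' : ((G ⧸ U) × (Fin n × Fin n)) ≃ (G' × (Fin n × Fin n)) := Equiv.prodCongr e (Equiv.refl _)
  obtain ⟨x', hx'⟩ := null (σ := G' × (Fin n × Fin n))
    (F := (MvPolynomial.rename e') '' (Fmul ∪ Fone ∪ Fcond)) (fun d hd F0 hF0 => by
      have h1 : ∀ᶠ i in cofinite, ∀ f ∈ (F0 : Set (MvPolynomial (G' × (Fin n × Fin n)) R)),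
          MvPolynomial.eval₂ (φ i) (pt i ∘ e'.symm) f = 0 := by
        rw [eventually_all_finite F0.finite_toSet]
        intro f hf
        obtain ⟨f', hf', rfl⟩ := hF0 f hf
        filter_upwards [hsol f' hf'] with i hi
        rw [MvPolynomial.eval₂_rename, Function.comp_assoc, Equiv.symm_comp_self, Function.comp_id]
        exact hi
      obtain ⟨i, hi1, hi2⟩ := (h1.and (hφ d hd)).exists
      exact ⟨k i, inferInstance, φ i, pt i ∘ e'.symm, hi2, fun f hf => hi1 f hf⟩) ι hι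
  set x : (G ⧸ U) × (Fin n × Fin n) → Ω := x' ∘ e' with hx
  have hx0 : ∀ f ∈ Fmul ∪ Fone ∪ Fcond, MvPolynomial.eval₂ ι x f = 0 := by
    intro f hf
    have := hx' _ ⟨f, hf, rfl⟩
    rwa [MvPolynomial.eval₂_rename] at this
  let M : G ⧸ U → Matrix (Fin n) (Fin n) Ω := fun γ => Matrix.of fun a b => x (γ, (a, b))
  have hM1 : M 1 = 1 := by
    ext a b
    have := hx0 _ (Or.inl (Or.inr ⟨a, b, rfl⟩))
    rw [MvPolynomial.eval₂_sub, MvPolynomial.eval₂_C, sub_eq_zero] at this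
    simp only [Y, MvPolynomial.eval₂_X] at this
    show x (1, (a, b)) = _
    rw [this, Matrix.one_apply, Matrix.one_apply]
    split_ifs <;> simp
  have hMmul : ∀ γ γ', M (γ * γ') = M γ * M γ' := by
    intro γ γ'
    ext a b
    have := hx0 _ (Or.inl (Or.inl ⟨γ, γ', a, b, rfl⟩))
    rw [MvPolynomial.eval₂_sub, MvPolynomial.eval₂_sum, sub_eq_zero] at this
    simp only [Y, MvPolynomial.eval₂_mul, MvPolynomial.eval₂_X] at this
    show x (γ * γ', (a, b)) = _
    rw [← this, Matrix.mul_apply]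
    rfl
  let r0 : (G ⧸ U) →* Matrix (Fin n) (Fin n) Ω :=
    { toFun := M, map_one' := hM1, map_mul' := hMmul }
  let r : G →* GL (Fin n) Ω := (MonoidHom.toHomUnits r0).comp (QuotientGroup.mk' U)
  have hr : ∀ g, (r g : Matrix (Fin n) (Fin n) Ω) = M (QuotientGroup.mk g) := fun g => rfl
  refine ⟨r, ?_, ?_⟩
  · intro u hu
    rw [MonoidHom.mem_ker]
    apply Units.ext
    rw [hr, Units.val_one, (QuotientGroup.eq_one_iff u).2 hu, hM1]
  · intro g q hq
    have := hx0 _ (Or.inr ⟨g, q, hq, rfl⟩)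
    rw [MvPolynomial.eval₂_rename] at this
    unfold ev
    rw [hr]
    exact this

variable {Ω : Type*} [Field Ω] (ι : R →+* Ω)

omit [Infinite I] [TopologicalSpace G] [IsDomain R] in
/-- characteristic polynomials are polynomial functions -/
theorem charpoly_of_ev (r : G →* GL (Fin n) Ω) (hr : ∀ (g : G) (q : MvPolynomial (Fin n × Fin n) R),
      (∀ᶠ i in cofinite, ev (φ i) (ρ i g : Matrix (Fin n) (Fin n) (k i)) q = 0) →
      ev ι (r g : Matrix (Fin n) (Fin n) Ω) q = 0) (g : G) (P : R[X])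
    (h : ∀ᶠ i in cofinite, (ρ i g : Matrix (Fin n) (Fin n) (k i)).charpoly = P.map (φ i)) :
    (r g : Matrix (Fin n) (Fin n) Ω).charpoly = P.map ι := by
  have hev : ∀ {S : Type _} [CommRing S] (f : R →+* S) (M : Matrix (Fin n) (Fin n) S) (m : ℕ),
      ev f M ((Matrix.charpoly.univ R (Fin n)).coeff m - MvPolynomial.C (P.coeff m)) =
        M.charpoly.coeff m - f (P.coeff m) := by
    intro S _ f M m
    unfold ev
    rw [MvPolynomial.eval₂_sub, MvPolynomial.eval₂_C]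
    congr 1
    have := Matrix.charpoly.univ_coeff_eval₂Hom (Fin n) f (fun ab : Fin n × Fin n => M ab.1 ab.2) m
    exact this
  ext m
  have h1 := hr g ((Matrix.charpoly.univ R (Fin n)).coeff m - MvPolynomial.C (P.coeff m))
    (h.mono fun i hi => by rw [hev, hi, coeff_map, sub_self])
  have h2 : ∀ (M : Matrix (Fin n) (Fin n) Ω),
      ev ι M ((Matrix.charpoly.univ R (Fin n)).coeff m - MvPolynomial.C (P.coeff m)) =
        M.charpoly.coeff m - ι (P.coeff m) := by
    intro M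
    unfold ev
    rw [MvPolynomial.eval₂_sub, MvPolynomial.eval₂_C]
    congr 1
    have := Matrix.charpoly.univ_coeff_eval₂Hom (Fin n) ι (fun ab : Fin n × Fin n => M ab.1 ab.2) m
    exact this
  rw [h2, sub_eq_zero] at h1
  rw [h1, coeff_map]

end rep

end Pool.Agent.Q92.DS
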