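import Pool.Agent.Q92.DS.Core
import Pool.Agent.W540.BE.Freq
import Pool.Agent.W401.Cheb.Frob
import Pool.Agent.W528.Ord.Dens
import Pool.Agent.Y800.FinImg
import Pool.Agent.Y800.Two

/-! The Deligne-Serre argument for the absolute Galois groups of number fields. -/

set_option autoImplicit false
set_option linter.all false

namespace Pool.Agent.Q92.DS

open Polynomial Filter Topology NumberField MeasureTheory IsDedekindDomain
open Pool.Agent.Y800 (IsSemisimpleRep few_traces tendsto_pi isClosed_preimage)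
open Pool.Agent.W401.Cheb (GK IsFrob IsInert dens ChebK)

section

variable {K : Type} [Field K] [NumberField K]

/-- Frobenius elements at `v` -/
def FrK (v : HeightOneSpectrum (𝓞 K)) : Set (GK K) := {σ | IsFrob v σ}

theorem FrK_ne (v : HeightOneSpectrum (𝓞 K)) : (FrK v).Nonempty :=
  Pool.Agent.W540.BE.exists_isFrob K v

/-- the number of primes in `Z` of norm at most `N` -/
noncomputable def cntK (Z : Set (HeightOneSpectrum (𝓞 K))) (N : ℕ) : ℕ :=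
  {v : HeightOneSpectrum (𝓞 K) | Ideal.absNorm v.asIdeal ≤ N ∧ v ∈ Z}.ncard

theorem fin_cntK (Z : Set (HeightOneSpectrum (𝓞 K))) (N : ℕ) :
    {v : HeightOneSpectrum (𝓞 K) | Ideal.absNorm v.asIdeal ≤ N ∧ v ∈ Z}.Finite := by
  refine (Finset.finite_toSet (Pool.Agent.W540.BE.upto K N)).subset fun v hv => ?_
  exact Pool.Agent.W540.BE.mem_upto.2 hv.1

theorem cntK_add_finite {Z : Set (HeightOneSpectrum (𝓞 K))} {c c' : ℝ} (hc : c < c')
    (hZ : ∀ᶠ N : ℕ in atTop, (cntK Z N : ℝ) ≤ c * (Nat.primeCounting N : ℝ))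
    (S : Finset (HeightOneSpectrum (𝓞 K))) :
    ∀ᶠ N : ℕ in atTop, (cntK (Z ∪ S) N : ℝ) ≤ c' * (Nat.primeCounting N : ℝ) := by
  have h1 : ∀ᶠ N : ℕ in atTop, (S.card : ℝ) / (c' - c) ≤ (Nat.primeCounting N : ℝ) :=
    tendsto_pi.eventually_ge_atTop _
  filter_upwards [hZ, h1] with N hN hN1
  rw [div_le_iff₀ (by linarith)] at hN1
  have h0 : cntK (Z ∪ S) N ≤ cntK Z N + S.card := by
    unfold cntK
    refine le_trans (Set.ncard_le_ncard (t := {v : HeightOneSpectrum (𝓞 K) |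
      Ideal.absNorm v.asIdeal ≤ N ∧ v ∈ Z} ∪ (S : Set (HeightOneSpectrum (𝓞 K)))) ?_
      ((fin_cntK Z N).union S.finite_toSet)) ((Set.ncard_union_le _ _).trans ?_)
    · rintro p ⟨h1, h3 | h3⟩
      · exact Or.inl ⟨h1, h3⟩
      · exact Or.inr h3
    · rw [Set.ncard_coe_finset]
  have h2 : (cntK (Z ∪ S) N : ℝ) ≤ cntK Z N + S.card := by exact_mod_cast h0
  nlinarith

theorem cntK_finite (S : Finset (HeightOneSpectrum (𝓞 K))) {c : ℝ} (hc : 0 < c) :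
    ∀ᶠ N : ℕ in atTop, (cntK (S : Set (HeightOneSpectrum (𝓞 K))) N : ℝ) ≤
      c * (Nat.primeCounting N : ℝ) := by
  have h0 : ∀ᶠ N : ℕ in atTop, (cntK (∅ : Set (HeightOneSpectrum (𝓞 K))) N : ℝ) ≤
      0 * (Nat.primeCounting N : ℝ) := by
    filter_upwards with N
    have : cntK (∅ : Set (HeightOneSpectrum (𝓞 K))) N = 0 := by
      unfold cntK
      simp
    rw [this]; simp
  have := cntK_add_finite hc h0 S
  simpa using this

/-- Chebotarev's theorem, upper bound -/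
theorem cheb_leK (U : Subgroup (GK K)) [U.Normal] (hU : IsOpen (U : Set (GK K))) (C : Set (GK K))
    (hconj : ∀ σ ∈ C, ∀ τ : GK K, τ * σ * τ⁻¹ ∈ C) (hCU : ∀ σ ∈ C, ∀ u ∈ U, σ * u ∈ C)
    (Z : Set (HeightOneSpectrum (𝓞 K))) (c : ℝ)
    (hZ : ∀ᶠ N : ℕ in atTop, (cntK Z N : ℝ) ≤ c * (Nat.primeCounting N : ℝ))
    (hC : ∀ v, v ∉ Z → ∀ σ : GK K, IsFrob v σ → σ ∉ C) :
    (((QuotientGroup.mk : GK K → GK K ⧸ U) '' C).ncard : ℝ) / (Nat.card (GK K ⧸ U) : ℝ) ≤ c := by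
  have key := Pool.Agent.W528.Ord.chebK K U hU C hconj hCU
  refine le_of_tendsto key ?_
  filter_upwards [hZ, eventually_ge_atTop 2] with N hN hN2
  have hpos : (0 : ℝ) < (Nat.primeCounting N : ℝ) := by
    have : 0 < Nat.primeCounting N := by
      have h1 : Nat.primeCounting 2 ≤ Nat.primeCounting N := Nat.monotone_primeCounting hN2
      have h2 : Nat.primeCounting 2 = 1 := by decide
      omega
    exact_mod_cast this
  unfold dens
  rw [div_le_iff₀ hpos]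
  refine le_trans ?_ hN
  norm_cast
  have e0 : Nat.card {v : HeightOneSpectrum (𝓞 K) // Ideal.absNorm v.asIdeal ≤ N ∧
      ∃ σ ∈ C, IsFrob v σ} = {v : HeightOneSpectrum (𝓞 K) | Ideal.absNorm v.asIdeal ≤ N ∧
      ∃ σ ∈ C, IsFrob v σ}.ncard := rfl
  rw [e0]
  refine Set.ncard_le_ncard ?_ (fin_cntK Z N)
  rintro v ⟨h1, σ, h2, h3⟩
  refine ⟨h1, ?_⟩
  by_contra h4
  exact hC v h4 σ h3 h2

theorem FrK_dense (U : Subgroup (GK K)) (hn : U.Normal) (hU : IsOpen (U : Set (GK K)))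
    (S : Finset (HeightOneSpectrum (𝓞 K)))
    (g : GK K) : ∃ v, v ∉ S ∧ ∃ σ ∈ FrK v, ∃ τ : GK K, τ * σ * τ⁻¹ * g⁻¹ ∈ U := by
  by_contra hcon
  push Not at hcon
  haveI hfin : Finite (GK K ⧸ U) := Subgroup.quotient_finite_of_isOpen _ hU
  set C : Set (GK K) := {x | ∃ τ : GK K, τ * x * τ⁻¹ * g⁻¹ ∈ U} with hC
  have hc : (0 : ℝ) < (Nat.card (GK K ⧸ U) : ℝ) := by exact_mod_cast Nat.card_pos
  set c : ℝ := 1 / (2 * (Nat.card (GK K ⧸ U) : ℝ)) with hcdef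
  have hcpos : 0 < c := by positivity
  have key := cheb_leK U hU C ?_ ?_ (S : Set (HeightOneSpectrum (𝓞 K))) c (cntK_finite S hcpos) ?_
  · have h1 : g ∈ C := ⟨1, by simp⟩
    have h2 : 1 ≤ ((QuotientGroup.mk : GK K → GK K ⧸ U) '' C).ncard :=
      (Set.ncard_pos (Set.toFinite _)).2 ⟨_, g, h1, rfl⟩
    have h3 : (1 : ℝ) ≤ (((QuotientGroup.mk : GK K → GK K ⧸ U) '' C).ncard : ℝ) := by exact_mod_cast h2
    rw [div_le_iff₀ hc] at key
    have h4 : c * (Nat.card (GK K ⧸ U) : ℝ) = 1 / 2 := by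
      rw [hcdef]
      field_simp
    linarith
  · rintro x ⟨τ, hτ⟩ y
    refine ⟨τ * y⁻¹, ?_⟩
    have : τ * y⁻¹ * (y * x * y⁻¹) * (τ * y⁻¹)⁻¹ * g⁻¹ = τ * x * τ⁻¹ * g⁻¹ := by group
    rwa [this]
  · rintro x ⟨τ, hτ⟩ u hu
    refine ⟨τ, ?_⟩
    have : τ * (x * u) * τ⁻¹ * g⁻¹ =
        (τ * x * τ⁻¹ * g⁻¹) * (g * (τ * u * τ⁻¹) * g⁻¹) := by group
    rw [this]
    exact U.mul_mem hτ (hn.conj_mem _ (hn.conj_mem _ hu τ) g)
  · rintro v hv σ hσ ⟨τ, hτ⟩
    exact hcon v (fun h => hv h) σ hσ τ hτ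

theorem exists_haarK : ∃ (m : MeasurableSpace (GK K)) (_ : BorelSpace (GK K)) (μ : Measure (GK K)),
    IsProbabilityMeasure μ ∧ μ.IsMulLeftInvariant ∧ μ.Regular := by
  letI : MeasurableSpace (GK K) := borel (GK K)
  haveI : BorelSpace (GK K) := ⟨rfl⟩
  refine ⟨inferInstance, inferInstance, Measure.haarMeasure (⊤ : TopologicalSpace.PositiveCompacts (GK K)), ?_, ?_, ?_⟩
  · constructor
    have := Measure.haarMeasure_self (G := GK K) (K₀ := ⊤)
    exact this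
  · infer_instance
  · infer_instance

theorem trace_conjK {k : Type*} [Field k] {n : ℕ} (ρ : GK K →* GL (Fin n) k) (σ τ : GK K) :
    (ρ (τ * σ * τ⁻¹) : Matrix (Fin n) (Fin n) k).trace = (ρ σ : Matrix (Fin n) (Fin n) k).trace := by
  rw [map_mul, map_mul, Units.val_mul, Units.val_mul, Matrix.trace_mul_comm, ← mul_assoc,
    ← Units.val_mul, ← map_mul, inv_mul_cancel, map_one, Units.val_one, one_mul]

/-- the order of the image is bounded -/
theorem boundedK {k : Type} [Field k] {n : ℕ} (Z : Set (HeightOneSpectrum (𝓞 K))) (c : ℝ)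
    (hc : c * n ^ 2 < 1)
    (hZ : ∀ᶠ N : ℕ in atTop, (cntK Z N : ℝ) ≤ c * (Nat.primeCounting N : ℝ))
    (hch : ∀ m : ℕ, 1 ≤ m → m ≤ n → (m : k) ≠ 0)
    (ρ : GK K →* GL (Fin n) k) (ho : IsOpen (ρ.ker : Set (GK K))) (hss : IsSemisimpleRep ρ)
    (T : Finset k)
    (hT : ∀ v, v ∉ Z → ∀ σ : GK K, IsFrob v σ → (ρ σ : Matrix (Fin n) (Fin n) k).trace ∈ T) :
    Finite (GK K ⧸ ρ.ker) ∧ (Nat.card (GK K ⧸ ρ.ker) : ℝ) * (1 - c * n ^ 2) ≤ (T.card : ℝ) ^ (n ^ 2) := by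
  classical
  obtain ⟨m, hm', μ, h1, h2, h3⟩ := exists_haarK (K := K)
  haveI hfin : Finite (GK K ⧸ ρ.ker) := Subgroup.quotient_finite_of_isOpen _ ho
  have hker : IsClosed (ρ.ker : Set (GK K)) := Subgroup.isClosed_of_isOpen _ ho
  set C : Set (GK K) := {g : GK K | (ρ g : Matrix (Fin n) (Fin n) k).trace ∈ T} with hCdef
  have hC : IsClosed C :=
    isClosed_preimage ρ ho {x | (x : Matrix (Fin n) (Fin n) k).trace ∈ T}
  have hCU : ∀ σ u : GK K, u ∈ ρ.ker → ρ (σ * u) = ρ σ := by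
    intro σ u hu
    have : ρ u = 1 := hu
    rw [map_mul, this, mul_one]
  have h4 := cheb_leK ρ.ker ho Cᶜ (fun σ hσ τ h => hσ (by
      show (ρ σ : Matrix (Fin n) (Fin n) k).trace ∈ T
      rw [← trace_conjK ρ σ τ]; exact h))
    (fun σ hσ u hu h => hσ (by
      show (ρ σ : Matrix (Fin n) (Fin n) k).trace ∈ T
      rw [← hCU σ u hu]; exact h)) Z c hZ (fun v hv σ hσ h => h (hT v hv σ hσ))
  set q : GK K → GK K ⧸ ρ.ker := QuotientGroup.mk with hq
  have hcomp : q '' Cᶜ = (q '' C)ᶜ := by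
    ext x
    obtain ⟨g, rfl⟩ := QuotientGroup.mk_surjective x
    have hinv : ∀ g' : GK K, q g' = q g → (g' ∈ C ↔ g ∈ C) := by
      intro g' hg'
      have h5 : g'⁻¹ * g ∈ ρ.ker := QuotientGroup.eq.1 hg'
      have h6 : ρ g = ρ g' := by
        have := hCU g' _ h5
        rwa [mul_inv_cancel_left] at this
      show (ρ g' : Matrix (Fin n) (Fin n) k).trace ∈ T ↔ (ρ g : Matrix (Fin n) (Fin n) k).trace ∈ T
      rw [h6]
    constructor
    · rintro ⟨g', hg', e⟩ ⟨g'', hg'', e'⟩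
      exact hg' ((hinv g' e).2 ((hinv g'' e').1 hg''))
    · intro h
      exact ⟨g, fun hg => h ⟨g, hg, rfl⟩, rfl⟩
  have h5 := Set.ncard_add_ncard_compl (q '' C)
  have hcard : (0 : ℝ) < (Nat.card (GK K ⧸ ρ.ker) : ℝ) := by exact_mod_cast Nat.card_pos
  rw [hcomp, div_le_iff₀ hcard] at h4
  have h6 : ((q '' C).ncard : ℝ) + ((q '' C)ᶜ).ncard = (Nat.card (GK K ⧸ ρ.ker) : ℝ) := by
    exact_mod_cast h5
  have h7 := Pool.Agent.W528.Ord.measure_union μ ρ.ker ho (q '' C)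
  have h8 := Pool.Agent.W528.Ord.measure_U μ ρ.ker ho
  have hset : {x | (QuotientGroup.mk x : GK K ⧸ ρ.ker) ∈ q '' C} = C := by
    ext x
    constructor
    · rintro ⟨g, hg, e⟩
      have h5 : g⁻¹ * x ∈ ρ.ker := QuotientGroup.eq.1 e
      have h6 : ρ x = ρ g := by
        have := hCU g _ h5
        rwa [mul_inv_cancel_left] at this
      show (ρ x : Matrix (Fin n) (Fin n) k).trace ∈ T
      rw [h6]; exact hg
    · intro hx
      exact ⟨x, hx, rfl⟩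
  rw [hset] at h7
  have hUt : μ (ρ.ker : Set (GK K)) ≠ ⊤ := measure_ne_top μ _
  have h9 : (Nat.card (GK K ⧸ ρ.ker) : ℝ) * (μ (ρ.ker : Set (GK K))).toReal = 1 := by
    have := congrArg ENNReal.toReal h8
    rw [ENNReal.toReal_mul, ENNReal.toReal_one, ENNReal.toReal_natCast] at this
    exact this
  have hμ : ENNReal.ofReal (1 - c) ≤ μ C := by
    rw [h7, ← ENNReal.ofReal_toReal hUt, ← ENNReal.ofReal_natCast, ← ENNReal.ofReal_mul (Nat.cast_nonneg _)]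
    apply ENNReal.ofReal_le_ofReal
    have h10 : (μ (ρ.ker : Set (GK K))).toReal = 1 / (Nat.card (GK K ⧸ ρ.ker) : ℝ) := by
      rw [eq_div_iff hcard.ne', mul_comm]; exact h9
    rw [h10, mul_one_div, le_div_iff₀ hcard]
    linarith
  exact few_traces μ ρ hss hch T c hker hC hμ hc

end

section family

variable {E : Type} [Field E] [NumberField E]

theorem finite_mem {K : Type} [Field K] [NumberField K] (d : 𝓞 K) (hd : d ≠ 0) :
    {l : HeightOneSpectrum (𝓞 K) | d ∈ l.asIdeal}.Finite := by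
  have h1 : Ideal.span {d} ≠ 0 := by
    rw [Ne, Ideal.zero_eq_bot, Ideal.span_singleton_eq_bot]
    exact hd
  refine (Ideal.finite_factors h1).subset fun l hl => ?_
  show l.asIdeal ∣ Ideal.span {d}
  rw [Ideal.dvd_span_singleton]
  exact hl

/-- nonzero elements are nonzero modulo almost all primes -/
theorem phiK {L : Set (HeightOneSpectrum (𝓞 E))} {k : L → Type} [∀ l, Field (k l)]
    (φ : ∀ l, 𝓞 E →+* k l) (hφ : ∀ l : L, RingHom.ker (φ l) = l.1.asIdeal) (d : 𝓞 E) (hd : d ≠ 0) :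
    ∀ᶠ l in cofinite, φ l d ≠ 0 := by
  rw [eventually_cofinite]
  refine ((finite_mem d hd).preimage (f := fun l : L => l.1) Subtype.val_injective.injOn).subset ?_
  intro l hl
  have h1 : φ l d = 0 := not_not.1 hl
  rw [← RingHom.mem_ker, hφ l] at h1
  exact h1

/-- only finitely many primes of `K` lie above the residue characteristic of a prime of `E` -/
theorem finite_above {K : Type} [Field K] [NumberField K] (l : HeightOneSpectrum (𝓞 E)) {k : Type}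
    [Field k] (φ : 𝓞 E →+* k) (hφ : RingHom.ker φ = l.asIdeal) :
    {v : HeightOneSpectrum (𝓞 K) | φ ((Ideal.absNorm v.asIdeal : ℕ) : 𝓞 E) = 0}.Finite := by
  have ha0 : Ideal.absNorm l.asIdeal ≠ 0 := by
    rw [Ne, Ideal.absNorm_eq_zero_iff]; exact l.ne_bot
  have ha : φ ((Ideal.absNorm l.asIdeal : ℕ) : 𝓞 E) = 0 := by
    rw [← RingHom.mem_ker, hφ]
    exact Ideal.absNorm_mem _
  have h0 : ((Ideal.absNorm l.asIdeal : ℕ) : 𝓞 K) ≠ 0 := by exact_mod_cast ha0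
  refine (finite_mem _ h0).subset fun v hv => ?_
  have hv' : φ ((Ideal.absNorm v.asIdeal : ℕ) : 𝓞 E) = 0 := hv
  haveI : v.asIdeal.IsMaximal := v.isMaximal
  letI := Ideal.Quotient.field v.asIdeal
  haveI : Finite (𝓞 K ⧸ v.asIdeal) := Ideal.finiteQuotientOfFreeOfNeBot _ v.ne_bot
  cases nonempty_fintype (𝓞 K ⧸ v.asIdeal)
  obtain ⟨p, hc⟩ := CharP.exists (𝓞 K ⧸ v.asIdeal)
  obtain ⟨m, hp, hk⟩ := FiniteField.card (𝓞 K ⧸ v.asIdeal) p
  have hN' : Ideal.absNorm v.asIdeal = p ^ (m : ℕ) := by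
    rw [Ideal.absNorm_apply, Submodule.cardQuot_apply, ← hk]
    exact Nat.card_eq_fintype_card
  have hpv : (p : 𝓞 K) ∈ v.asIdeal := by
    rw [← Ideal.Quotient.eq_zero_iff_mem, map_natCast]
    exact CharP.cast_eq_zero _ _
  have hpa : p ∣ Ideal.absNorm l.asIdeal := by
    by_contra hnd
    have hcop : Nat.Coprime (Ideal.absNorm l.asIdeal) (Ideal.absNorm v.asIdeal) := by
      rw [hN']
      exact (Nat.Coprime.pow_left _ ((Nat.Prime.coprime_iff_not_dvd hp).2 hnd)).symm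
    have h1 := Nat.isCoprime_iff_coprime.2 hcop
    obtain ⟨x, y, hxy⟩ := h1
    have h2 := congrArg (fun z : ℤ => φ (z : 𝓞 E)) hxy
    simp only [Int.cast_add, Int.cast_mul, Int.cast_natCast, map_add, map_mul, ha, hv', mul_zero,
      add_zero, Int.cast_one, map_one] at h2
    exact zero_ne_one h2
  obtain ⟨b, hb⟩ := hpa
  show ((Ideal.absNorm l.asIdeal : ℕ) : 𝓞 K) ∈ v.asIdeal
  rw [hb, Nat.cast_mul]
  exact Ideal.mul_mem_right _ _ hpv

end family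

section main

variable {K : Type} [Field K] [NumberField K] {E : Type} [Field E] [NumberField E] {n : ℕ}

/-- **The Deligne-Serre argument over number fields.** -/
theorem of_modK (hn : 0 < n) (S : Finset (HeightOneSpectrum (𝓞 K))) (T : Finset (𝓞 E))
    (Z : Set (HeightOneSpectrum (𝓞 K))) (c : ℝ) (hc : c * n ^ 2 < 1)
    (hZ : ∀ᶠ N : ℕ in atTop, (cntK Z N : ℝ) ≤ c * (Nat.primeCounting N : ℝ))
    (P : HeightOneSpectrum (𝓞 K) → (𝓞 E)[X]) (hP : ∀ v, v ∉ S → (P v).Monic)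
    (hT : ∀ v, v ∉ S → v ∉ Z → - (P v).coeff (n - 1) ∈ T)
    (L : Set (HeightOneSpectrum (𝓞 E))) (hL : L.Infinite) (k : L → Type) [∀ l, Field (k l)]
    (φ : ∀ l, 𝓞 E →+* k l) (hφ : ∀ l : L, RingHom.ker (φ l) = l.1.asIdeal)
    (ρ : ∀ l, GK K →* GL (Fin n) (k l))
    (ho : ∀ l, IsOpen ((ρ l).ker : Set (GK K))) (hss : ∀ l, IsSemisimpleRep (ρ l))
    (hm : ∀ (l : L) (v : HeightOneSpectrum (𝓞 K)), v ∉ S →
      φ l ((Ideal.absNorm v.asIdeal : ℕ) : 𝓞 E) ≠ 0 → ∀ σ : GK K, IsFrob v σ →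
      (ρ l σ : Matrix (Fin n) (Fin n) (k l)).charpoly = (P v).map (φ l))
    {Ω : Type*} [Field Ω] [IsAlgClosed Ω] (ι : 𝓞 E →+* Ω) (hι : Function.Injective ι) :
    (∀ v : HeightOneSpectrum (𝓞 K), ∀ᶠ l : L in cofinite, φ l ((Ideal.absNorm v.asIdeal : ℕ) : 𝓞 E) ≠ 0) ∧
    ∃ r : GK K →* GL (Fin n) Ω, IsOpen (r.ker : Set (GK K)) ∧
      (∀ g, (∀ᶠ l in cofinite, ρ l g = 1) → r g = 1) ∧
      (∀ (g : GK K) (q : MvPolynomial (Fin n × Fin n) (𝓞 E)),
        (∀ᶠ l in cofinite, ev (φ l) (ρ l g : Matrix (Fin n) (Fin n) (k l)) q = 0) →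
        ev ι (r g : Matrix (Fin n) (Fin n) Ω) q = 0) ∧
      ∀ (g : GK K) (Q : (𝓞 E)[X]),
        (∀ᶠ l in cofinite, (ρ l g : Matrix (Fin n) (Fin n) (k l)).charpoly = Q.map (φ l)) →
        (r g : Matrix (Fin n) (Fin n) Ω).charpoly = Q.map ι := by
  classical
  haveI : Infinite L := hL.to_subtype
  obtain ⟨c', hcc, hc'⟩ : ∃ c', c < c' ∧ c' * (n : ℝ) ^ 2 < 1 := by
    have hn' : (0 : ℝ) < (n : ℝ) ^ 2 := by positivity
    refine ⟨(c + 1 / (n : ℝ) ^ 2) / 2, ?_, ?_⟩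
    · have : c < 1 / (n : ℝ) ^ 2 := by rw [lt_div_iff₀ hn']; exact hc
      linarith
    · have h1 : 1 / (n : ℝ) ^ 2 * (n : ℝ) ^ 2 = 1 := by field_simp
      nlinarith
  have hphi := phiK φ hφ
  have hnorm : ∀ v : HeightOneSpectrum (𝓞 K), ∀ᶠ l : L in cofinite,
      φ l ((Ideal.absNorm v.asIdeal : ℕ) : 𝓞 E) ≠ 0 := by
    intro v
    apply hphi
    have : Ideal.absNorm v.asIdeal ≠ 0 := by
      rw [Ne, Ideal.absNorm_eq_zero_iff]; exact v.ne_bot
    exact_mod_cast this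
  refine ⟨hnorm, ?_⟩
  let B : L → Finset (HeightOneSpectrum (𝓞 K)) := fun l => (finite_above l.1 (φ l) (hφ l)).toFinset
  have hB' : ∀ (l : L) (v : HeightOneSpectrum (𝓞 K)), v ∉ B l ↔
      φ l ((Ideal.absNorm v.asIdeal : ℕ) : 𝓞 E) ≠ 0 := by
    intro l v
    show v ∉ (finite_above l.1 (φ l) (hφ l)).toFinset ↔ _
    rw [Set.Finite.mem_toFinset]
    rfl
  set A := ⌈(T.card : ℝ) ^ (n ^ 2) / (1 - c' * n ^ 2)⌉₊ with hA
  have hAb : ∀ᶠ l in cofinite, Finite (GK K ⧸ (ρ l).ker) ∧ Nat.card (GK K ⧸ (ρ l).ker) ≤ A := by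
    have hfac : ((n.factorial : ℕ) : 𝓞 E) ≠ 0 := by exact_mod_cast Nat.factorial_ne_zero n
    filter_upwards [hphi _ hfac] with l hl
    have hch : ∀ m : ℕ, 1 ≤ m → m ≤ n → (m : k l) ≠ 0 := by
      intro m hm1 hmn h0
      apply hl
      obtain ⟨b, hb⟩ := Nat.dvd_factorial (by omega) hmn
      rw [map_natCast, hb, Nat.cast_mul, h0, zero_mul]
    have h4 := boundedK (Z ∪ ((S ∪ B l : Finset (HeightOneSpectrum (𝓞 K))) :
      Set (HeightOneSpectrum (𝓞 K)))) c' hc' (cntK_add_finite hcc hZ (S ∪ B l)) hch (ρ l) (ho l) (hss l)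
      (T.image (φ l)) (by
        intro v hv σ hσ
        rw [Set.mem_union, not_or, Finset.mem_coe, Finset.notMem_union] at hv
        obtain ⟨hvZ, hvS, hvB⟩ := hv
        haveI : Nonempty (Fin n) := ⟨⟨0, hn⟩⟩
        have htr := Matrix.trace_eq_neg_charpoly_coeff (ρ l σ : Matrix (Fin n) (Fin n) (k l))
        rw [Fintype.card_fin] at htr
        rw [htr, hm l v hvS ((hB' l v).1 hvB) σ hσ, coeff_map, ← map_neg]
        exact Finset.mem_image_of_mem _ (hT v hvS hvZ))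
    refine ⟨h4.1, ?_⟩
    have h5 : (Nat.card (GK K ⧸ (ρ l).ker) : ℝ) ≤ (T.card : ℝ) ^ (n ^ 2) / (1 - c' * n ^ 2) := by
      rw [le_div_iff₀ (by linarith)]
      refine h4.2.trans ?_
      exact pow_le_pow_left₀ (Nat.cast_nonneg _) (by exact_mod_cast Finset.card_image_le) _
    have h6 : (Nat.card (GK K ⧸ (ρ l).ker) : ℝ) ≤ (A : ℝ) := h5.trans (Nat.le_ceil _)
    exact_mod_cast h6
  have hB : ∀ v, ∀ᶠ l in cofinite, v ∉ B l := by
    intro v
    filter_upwards [hnorm v] with l hl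
    exact (hB' l v).2 hl
  obtain ⟨U, hUn, hU, hUf, hk⟩ := kernels FrK FrK_ne FrK_dense φ hphi ρ ho A hAb S B hB
    P (fun v hv => hP v hv) (fun l v hv hvB σ hσ => hm l v hv ((hB' l v).1 hvB) σ hσ)
  obtain ⟨r, hr1, hr2⟩ := exists_rep φ hphi ρ U hU hk ι hι
  refine ⟨r, Subgroup.isOpen_mono hr1 hU, ?_, hr2, ?_⟩
  · intro g hg
    obtain ⟨l, hl1, hl2⟩ := (hk.and hg).exists
    exact hr1 (hl1.le hl2)
  · intro g Q hQ
    exact charpoly_of_ev φ ρ ι r hr2 g Q hQ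

end main

end Pool.Agent.Q92.DS
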