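import Mathlib

/-! A Nullstellensatz: a system of polynomial equations over a domain `R`, all of whose finite parts can be
solved in fields to which `R` maps with any given nonzero element not going to zero, can be solved in every
algebraically closed extension of `R`. -/

set_option autoImplicit false
set_option linter.all false

namespace Pool.Agent.Q92.DS

open MvPolynomial

/-- common denominators -/
theorem clear {R : Type*} [CommRing R] [IsDomain R] {σ : Type*} (g : MvPolynomial σ (FractionRing R)) :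
    ∃ (d : R) (g' : MvPolynomial σ R), d ≠ 0 ∧
      C (algebraMap R (FractionRing R) d) * g = MvPolynomial.map (algebraMap R (FractionRing R)) g' := by
  induction g using MvPolynomial.induction_on with
  | C a =>
    obtain ⟨r, d, hd0, rfl⟩ := IsFractionRing.div_surjective (A := R) a
    have hd : (d : R) ≠ 0 := nonZeroDivisors.ne_zero hd0
    refine ⟨d, C r, hd, ?_⟩
    rw [← map_mul, MvPolynomial.map_C, mul_div_cancel₀]
    exact (map_ne_zero_iff _ (IsFractionRing.injective R (FractionRing R))).2 hd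
  | add p q hp hq =>
    obtain ⟨m, p', hm, hp⟩ := hp
    obtain ⟨l, q', hl, hq⟩ := hq
    refine ⟨m * l, C l * p' + C m * q', mul_ne_zero hm hl, ?_⟩
    rw [map_add, map_mul, map_mul, map_mul, map_mul, MvPolynomial.map_C, MvPolynomial.map_C, ← hp, ← hq]
    ring
  | mul_X p i hp =>
    obtain ⟨m, p', hm, hp⟩ := hp
    refine ⟨m, p' * X i, hm, ?_⟩
    rw [map_mul, MvPolynomial.map_X, ← hp, mul_assoc]

theorem clear_ideal {R : Type*} [CommRing R] [IsDomain R] {σ : Type*} (F : Set (MvPolynomial σ R))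
    (g : MvPolynomial σ (FractionRing R))
    (hg : g ∈ Ideal.span (MvPolynomial.map (algebraMap R (FractionRing R)) '' F)) :
    ∃ (d : R) (F0 : Finset (MvPolynomial σ R)) (g' : MvPolynomial σ R), d ≠ 0 ∧
      (∀ f ∈ F0, f ∈ F) ∧ g' ∈ Ideal.span (F0 : Set (MvPolynomial σ R)) ∧
      C (algebraMap R (FractionRing R) d) * g = MvPolynomial.map (algebraMap R (FractionRing R)) g' := by
  classical
  induction hg using Submodule.span_induction with
  | mem x hx =>
    obtain ⟨f, hf, rfl⟩ := hx
    refine ⟨1, {f}, f, one_ne_zero, ?_, Ideal.subset_span (by simp), by simp⟩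
    intro f' hf'
    rw [Finset.mem_singleton] at hf'
    rw [hf']; exact hf
  | zero => exact ⟨1, ∅, 0, one_ne_zero, by simp, zero_mem _, by simp⟩
  | add p q _ _ hp hq =>
    obtain ⟨m, F1, p', hm, hF1, hpm, hp⟩ := hp
    obtain ⟨l, F2, q', hl, hF2, hqm, hq⟩ := hq
    refine ⟨m * l, F1 ∪ F2, C l * p' + C m * q', mul_ne_zero hm hl, ?_, ?_, ?_⟩
    · intro f hf
      rcases Finset.mem_union.1 hf with h | h
      · exact hF1 f h
      · exact hF2 f h
    · refine add_mem (Ideal.mul_mem_left _ _ ?_) (Ideal.mul_mem_left _ _ ?_)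
      · exact Ideal.span_mono (by rw [Finset.coe_union]; exact Set.subset_union_left) hpm
      · exact Ideal.span_mono (by rw [Finset.coe_union]; exact Set.subset_union_right) hqm
    · rw [map_add, map_mul, map_mul, map_mul, map_mul, MvPolynomial.map_C, MvPolynomial.map_C, ← hp, ← hq]
      ring
  | smul a p _ hp =>
    obtain ⟨m, F1, p', hm, hF1, hpm, hp⟩ := hp
    obtain ⟨l, a', hl, ha⟩ := clear a
    refine ⟨l * m, F1, a' * p', mul_ne_zero hl hm, hF1, Ideal.mul_mem_left _ _ hpm, ?_⟩
    rw [map_mul (MvPolynomial.map _), ← hp, ← ha, smul_eq_mul, map_mul, map_mul]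
    ring

theorem null {R : Type} [CommRing R] [IsDomain R] {σ : Type} [Finite σ] (F : Set (MvPolynomial σ R))
    (h : ∀ d : R, d ≠ 0 → ∀ F0 : Finset (MvPolynomial σ R), (∀ f ∈ F0, f ∈ F) →
      ∃ (k : Type) (_ : Field k) (φ : R →+* k) (x : σ → k), φ d ≠ 0 ∧
        ∀ f ∈ F0, MvPolynomial.eval₂ φ x f = 0)
    {Ω : Type*} [Field Ω] [IsAlgClosed Ω] (ι : R →+* Ω) (hι : Function.Injective ι) :
    ∃ x : σ → Ω, ∀ f ∈ F, MvPolynomial.eval₂ ι x f = 0 := by
  set K := FractionRing R with hK
  have hinj : Function.Injective (algebraMap R K) := IsFractionRing.injective R K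
  have hJ : Ideal.span (MvPolynomial.map (algebraMap R K) '' F) ≠ ⊤ := by
    intro hJ
    obtain ⟨d, F0, g, hd, hF0, hg, hdg⟩ := clear_ideal F 1 (by rw [hJ]; trivial)
    obtain ⟨k, _, φ, x, hm0, hx⟩ := h d hd F0 hF0
    have h1 : Ideal.span (F0 : Set (MvPolynomial σ R)) ≤ RingHom.ker (MvPolynomial.eval₂Hom φ x) := by
      rw [Ideal.span_le]
      intro f hf
      exact hx f hf
    have h2 := h1 hg
    have h3 : g = C d := by
      apply MvPolynomial.map_injective (algebraMap R K) hinj
      rw [← hdg, mul_one, MvPolynomial.map_C]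
    rw [RingHom.mem_ker, h3, MvPolynomial.eval₂Hom_C] at h2
    exact hm0 h2
  obtain ⟨M, hM, hJM⟩ := Ideal.exists_le_maximal _ hJ
  letI : Field (MvPolynomial σ K ⧸ M) := Ideal.Quotient.field M
  haveI : Algebra.FiniteType K (MvPolynomial σ K ⧸ M) := inferInstance
  haveI : Module.Finite K (MvPolynomial σ K ⧸ M) := finite_of_finite_type_of_isJacobsonRing K _
  haveI : Algebra.IsAlgebraic K (MvPolynomial σ K ⧸ M) := Algebra.IsAlgebraic.of_finite K _
  letI : Algebra K Ω := (IsFractionRing.lift hι : K →+* Ω).toAlgebra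
  let l : (MvPolynomial σ K ⧸ M) →ₐ[K] Ω := IsAlgClosed.lift
  refine ⟨fun i => l (Ideal.Quotient.mk M (X i)), fun f hf => ?_⟩
  have h1 : MvPolynomial.map (algebraMap R K) f ∈ M := hJM (Ideal.subset_span ⟨f, hf, rfl⟩)
  have h2 : ((l : (MvPolynomial σ K ⧸ M) →+* Ω).comp (Ideal.Quotient.mk M))
      (MvPolynomial.map (algebraMap R K) f) = 0 := by
    rw [RingHom.comp_apply, Ideal.Quotient.eq_zero_iff_mem.2 h1, map_zero]
  have h3 : (((l : (MvPolynomial σ K ⧸ M) →+* Ω).comp (Ideal.Quotient.mk M)).comp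
      (MvPolynomial.map (algebraMap R K))) =
      MvPolynomial.eval₂Hom ι (fun i => l (Ideal.Quotient.mk M (X i))) := by
    apply MvPolynomial.ringHom_ext
    · intro r
      rw [RingHom.comp_apply, RingHom.comp_apply, MvPolynomial.map_C, MvPolynomial.eval₂Hom_C]
      have h4 : Ideal.Quotient.mk M (C (algebraMap R K r)) =
          algebraMap K (MvPolynomial σ K ⧸ M) (algebraMap R K r) := rfl
      rw [h4]
      have h5 : (l : (MvPolynomial σ K ⧸ M) →+* Ω) (algebraMap K (MvPolynomial σ K ⧸ M) (algebraMap R K r)) =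
          algebraMap K Ω (algebraMap R K r) := l.commutes _
      rw [h5]
      exact IsFractionRing.lift_algebraMap hι r
    · intro i
      rw [RingHom.comp_apply, RingHom.comp_apply, MvPolynomial.map_X, MvPolynomial.eval₂Hom_X']
      rfl
  have h4 := congrArg (fun t : MvPolynomial σ R →+* Ω => t f) h3
  have h5 : MvPolynomial.eval₂Hom ι (fun i => l (Ideal.Quotient.mk M (X i))) f = 0 := by
    rw [← h4]
    exact h2
  exact h5

end Pool.Agent.Q92.DS
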