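import Pool.Agent.Q92.DS.Core
import Pool.Agent.Y800.Frob2
import Pool.Agent.Y800.Ext

/-! The Deligne-Serre argument for the absolute Galois group of `ℚ`. -/

set_option autoImplicit false
set_option linter.all false

namespace Pool.Agent.Q92.DS

open Polynomial Filter NumberField MeasureTheory Pool.Agent.Y800

/-- geometric Frobenius elements at the prime `p` -/
def Fr (p : Nat.Primes) : Set GQ :=
  {σ | ∃ P : Ideal ZBar, P.IsMaximal ∧ ((p : ℕ) : ZBar) ∈ P ∧ IsGeomFrob p P σ}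

theorem Fr_ne (p : Nat.Primes) : (Fr p).Nonempty := by
  obtain ⟨P, σ, h1, h2, h3⟩ := exists_geom p.2
  exact ⟨σ, P, h1, h2, h3⟩

theorem Fr_dense (U : Subgroup GQ) (hn : U.Normal) (hU : IsOpen (U : Set GQ)) (S : Finset Nat.Primes)
    (g : GQ) : ∃ v, v ∉ S ∧ ∃ σ ∈ Fr v, ∃ τ : GQ, τ * σ * τ⁻¹ * g⁻¹ ∈ U := by
  classical
  obtain ⟨p, hp, hpS, P, hP, hpP, σ, hσ, τ, hτ⟩ := exists_frob U hU (Finset.image (fun q : Nat.Primes => (q : ℕ)) S) g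
  refine ⟨⟨p, hp⟩, fun h => hpS (Finset.mem_image.2 ⟨(⟨p, hp⟩ : Nat.Primes), h, rfl⟩), σ, ⟨P, hP, hpP, hσ⟩, τ, hτ⟩

/-- a nonzero algebraic integer is nonzero modulo almost all primes -/
theorem phi_ok {L : Set ℕ} {k : L → Type} [∀ l, Field (k l)] [∀ l : L, CharP (k l) l]
    (φ : ∀ l, ZBar →+* k l) (d : ZBar) (hd : d ≠ 0) : ∀ᶠ l in cofinite, φ l d ≠ 0 := by
  obtain ⟨m, r, hm, hr⟩ := exists_int_mul hd
  rw [eventually_cofinite]
  have hfin : {l : ℕ | (l : ℤ) ∣ m}.Finite := by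
    refine (Set.finite_Iic m.natAbs).subset fun l hl => ?_
    exact Nat.le_of_dvd (Int.natAbs_pos.2 hm) (Int.natCast_dvd.1 hl)
  refine (hfin.preimage (f := fun l : L => (l : ℕ)) Subtype.val_injective.injOn).subset ?_
  intro l hl
  have h1 : φ l d = 0 := not_not.1 hl
  have h2 : φ l (m : ZBar) = 0 := by rw [← hr, map_mul, h1, zero_mul]
  rw [map_intCast, CharP.intCast_eq_zero_iff (k l) l] at h2
  exact h2

variable {n : ℕ}

theorem trace_coeff {k : Type*} [Field k] (hn : 0 < n) (M : Matrix (Fin n) (Fin n) k) :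
    M.trace = - M.charpoly.coeff (n - 1) := by
  haveI : Nonempty (Fin n) := ⟨⟨0, hn⟩⟩
  have := Matrix.trace_eq_neg_charpoly_coeff M
  rwa [Fintype.card_fin] at this

/-- the order of the image is bounded -/
theorem bounded (S : Finset ℕ) (T : Finset ZBar) (Z : Set ℕ) (c c' : ℝ) (hcc : c < c')
    (hc : c' * n ^ 2 < 1)
    (hZ : ∀ᶠ N : ℕ in atTop, (cnt Z N : ℝ) ≤ c * (Nat.primeCounting N : ℝ)) (P : ℕ → ZBar[X])
    (hT : ∀ p : ℕ, p.Prime → p ∉ Z → p ∉ S → - (P p).coeff (n - 1) ∈ T) (hn : 0 < n)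
    {k : Type} [Field k] (l : ℕ) [CharP k l] (hln : n < l) (φ : ZBar →+* k)
    (ρ : GQ →* GL (Fin n) k) (ho : IsOpen (ρ.ker : Set GQ)) (hss : IsSemisimpleRep ρ)
    (hm : ∀ p : ℕ, p.Prime → p ≠ l → p ∉ S → ∀ Q : Ideal ZBar, Q.IsMaximal → (p : ZBar) ∈ Q →
      ∀ σ : GQ, IsGeomFrob p Q σ → (ρ σ : Matrix (Fin n) (Fin n) k).charpoly = (P p).map φ) :
    Finite (GQ ⧸ ρ.ker) ∧ Nat.card (GQ ⧸ ρ.ker) ≤ ⌈(T.card : ℝ) ^ (n ^ 2) / (1 - c' * n ^ 2)⌉₊ := by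
  classical
  obtain ⟨m, hm', μ, h1, h2, h3⟩ := exists_haar
  have hker : IsClosed (ρ.ker : Set GQ) := Subgroup.isClosed_of_isOpen _ ho
  have hC : IsClosed {g : GQ | (ρ g : Matrix (Fin n) (Fin n) k).trace ∈ T.image φ} :=
    isClosed_preimage ρ ho {x | (x : Matrix (Fin n) (Fin n) k).trace ∈ T.image φ}
  have hZ' := cnt_add_finite hcc hZ (insert l S)
  have hμ := haar_ge μ {g : GQ | (ρ g : Matrix (Fin n) (Fin n) k).trace ∈ T.image φ} hC
    (fun σ hσ τ => by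
      show (ρ (τ * σ * τ⁻¹) : Matrix (Fin n) (Fin n) k).trace ∈ T.image φ
      rw [trace_conj_inv]; exact hσ) (Z ∪ ((insert l S : Finset ℕ) : Set ℕ)) c' hZ' (by
      intro p hp hpZ Q hQ hpQ σ hσ
      rw [Set.mem_union, not_or] at hpZ
      obtain ⟨hpZ, hpS⟩ := hpZ
      rw [Finset.mem_coe, Finset.mem_insert, not_or] at hpS
      show (ρ σ : Matrix (Fin n) (Fin n) k).trace ∈ T.image φ
      rw [trace_coeff hn, hm p hp hpS.1 hpS.2 Q hQ hpQ σ hσ, coeff_map, ← map_neg]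
      exact Finset.mem_image_of_mem _ (hT p hp hpZ hpS.2))
  have hch : ∀ m : ℕ, 1 ≤ m → m ≤ n → (m : k) ≠ 0 := by
    intro m hm1 hmn h0
    rw [CharP.cast_eq_zero_iff k l] at h0
    have := Nat.le_of_dvd (by omega) h0
    omega
  have h4 := few_traces μ ρ hss hch (T.image φ) c' hker hC hμ hc
  refine ⟨h4.1, ?_⟩
  have h5 : (Nat.card (GQ ⧸ ρ.ker) : ℝ) ≤ (T.card : ℝ) ^ (n ^ 2) / (1 - c' * n ^ 2) := by
    rw [le_div_iff₀ (by linarith)]
    refine h4.2.trans ?_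
    exact pow_le_pow_left₀ (Nat.cast_nonneg _) (by exact_mod_cast Finset.card_image_le) _
  exact_mod_cast h5.trans (Nat.le_ceil _)

/-- **From infinitely many residue characteristics to characteristic zero.** -/
theorem of_mod (S : Finset ℕ) (T : Finset ZBar) (Z : Set ℕ) (c : ℝ) (hc : c * n ^ 2 < 1)
    (hZ : ∀ᶠ N : ℕ in atTop, (cnt Z N : ℝ) ≤ c * (Nat.primeCounting N : ℝ)) (P : ℕ → ZBar[X])
    (hP : ∀ p : ℕ, p.Prime → p ∉ S → (P p).Monic)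
    (hT : ∀ p : ℕ, p.Prime → p ∉ Z → p ∉ S → - (P p).coeff (n - 1) ∈ T) (hn : 0 < n)
    (L : Set ℕ) (hL : L.Infinite) (k : L → Type) [∀ l, Field (k l)]
    [∀ l : L, CharP (k l) l] (φ : ∀ l, ZBar →+* k l) (ρ : ∀ l, GQ →* GL (Fin n) (k l))
    (ho : ∀ l, IsOpen ((ρ l).ker : Set GQ)) (hss : ∀ l, IsSemisimpleRep (ρ l))
    (hu : ∀ (l : L) (p : ℕ), p.Prime → p ≠ l → p ∉ S → Unramified (ρ l) p)
    (hm : ∀ (l : L) (p : ℕ), p.Prime → p ≠ l → p ∉ S → ∀ Q : Ideal ZBar, Q.IsMaximal → (p : ZBar) ∈ Q →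
      ∀ σ : GQ, IsGeomFrob p Q σ → (ρ l σ : Matrix (Fin n) (Fin n) (k l)).charpoly = (P p).map (φ l))
    {Ω : Type*} [Field Ω] [IsAlgClosed Ω] (ι : ZBar →+* Ω) (hι : Function.Injective ι) :
    ∃ r : GQ →* GL (Fin n) Ω, IsOpen (r.ker : Set GQ) ∧ ∀ p : ℕ, p.Prime → p ∉ S →
      Unramified r p ∧ ∀ Q : Ideal ZBar, Q.IsMaximal → (p : ZBar) ∈ Q →
      ∀ σ : GQ, IsGeomFrob p Q σ → (r σ : Matrix (Fin n) (Fin n) Ω).charpoly = (P p).map ι := by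
  classical
  haveI : Infinite L := hL.to_subtype
  obtain ⟨c', hcc, hc'⟩ : ∃ c', c < c' ∧ c' * (n : ℝ) ^ 2 < 1 := by
    have hn' : (0 : ℝ) < (n : ℝ) ^ 2 := by positivity
    refine ⟨(c + 1 / (n : ℝ) ^ 2) / 2, ?_, ?_⟩
    · have : c < 1 / (n : ℝ) ^ 2 := by rw [lt_div_iff₀ hn']; exact hc
      linarith
    · have h1 : 1 / (n : ℝ) ^ 2 * (n : ℝ) ^ 2 = 1 := by field_simp
      nlinarith
  set A := ⌈(T.card : ℝ) ^ (n ^ 2) / (1 - c' * n ^ 2)⌉₊ with hA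
  have hAb : ∀ᶠ l in cofinite, Finite (GQ ⧸ (ρ l).ker) ∧ Nat.card (GQ ⧸ (ρ l).ker) ≤ A := by
    have hbig : ∀ᶠ l : L in cofinite, n < (l : ℕ) := by
      rw [eventually_cofinite]
      refine ((Set.finite_Iic n).preimage (f := fun l : L => (l : ℕ)) Subtype.val_injective.injOn).subset ?_
      intro l hl
      exact not_lt.1 hl
    filter_upwards [hbig] with l hl
    exact bounded S T Z c c' hcc hc' hZ P hT hn (l : ℕ) hl (φ l) (ρ l) (ho l) (hss l) (hm l)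
  have hphi := phi_ok φ
  let S' : Finset Nat.Primes := S.subtype Nat.Prime
  have hS' : ∀ v : Nat.Primes, v ∉ S' ↔ (v : ℕ) ∉ S := by
    intro v
    exact not_congr Finset.mem_subtype
  let B : L → Finset Nat.Primes := fun l => ({(l : ℕ)} : Finset ℕ).subtype Nat.Prime
  have hB' : ∀ (l : L) (v : Nat.Primes), v ∉ B l ↔ (v : ℕ) ≠ l := by
    intro l v
    exact (not_congr Finset.mem_subtype).trans (not_congr Finset.mem_singleton)
  have hB : ∀ v, ∀ᶠ l in cofinite, v ∉ B l := by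
    intro v
    rw [eventually_cofinite]
    refine ((Set.finite_singleton (v : ℕ)).preimage (f := fun l : L => (l : ℕ))
      Subtype.val_injective.injOn).subset ?_
    intro l hl
    have : ¬ (v : ℕ) ≠ l := fun h => hl ((hB' l v).2 h)
    exact (not_not.1 this).symm
  obtain ⟨U, hUn, hU, hUf, hk⟩ := kernels Fr Fr_ne Fr_dense φ hphi ρ ho A hAb S' B hB
    (fun v => P v) (fun v hv => hP v v.2 ((hS' v).1 hv))
    (fun l v hv hvB σ hσ => by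
      obtain ⟨Q, hQ, hpQ, hσ'⟩ := hσ
      exact hm l v v.2 ((hB' l v).1 hvB) ((hS' v).1 hv) Q hQ hpQ σ hσ')
  obtain ⟨r, hr1, hr2⟩ := exists_rep φ hphi ρ U hU hk ι hι
  refine ⟨r, Subgroup.isOpen_mono hr1 hU, fun p hp hpS => ⟨?_, ?_⟩⟩
  · intro Q hQ hpQ τ hτ
    have hB1 := hB ⟨p, hp⟩
    obtain ⟨l, hl1, hl2⟩ := (hk.and hB1).exists
    have h1 : ρ l τ = 1 := hu l p hp ((hB' l ⟨p, hp⟩).1 hl2) hpS Q hQ hpQ τ hτ
    have h2 : τ ∈ U := by rw [← hl1]; exact h1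
    exact hr1 h2
  · intro Q hQ hpQ σ hσ
    refine charpoly_of_ev φ ρ ι r hr2 σ (P p) ?_
    filter_upwards [hB ⟨p, hp⟩] with l hl
    exact hm l p hp ((hB' l ⟨p, hp⟩).1 hl) hpS Q hQ hpQ σ hσ

end Pool.Agent.Q92.DS
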