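import Pool.Agent.Q92.DS.Uni
import Pool.Agent.Q92.DS.Rat

/-! Uniform Deligne-Serre over `ℚ`: one residual representation. -/

set_option autoImplicit false
set_option linter.all false

namespace Pool.Agent.Q92.DS

open Polynomial Filter NumberField MeasureTheory Pool.Agent.Y800

variable {n : ℕ}

/-- the equations for matrices with characteristic polynomial `Q` -/
def Ceq (n : ℕ) (Q : ZBar[X]) : Set (MvPolynomial (Fin n × Fin n) ZBar) :=
  {q | ∃ m : ℕ, q = (Matrix.charpoly.univ ZBar (Fin n)).coeff m - MvPolynomial.C (Q.coeff m)}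

theorem ceq_iff {k : Type*} [Field k] (φ : ZBar →+* k) (M : Matrix (Fin n) (Fin n) k) (Q : ZBar[X]) :
    (∀ q ∈ Ceq n Q, ev φ M q = 0) ↔ M.charpoly = Q.map φ := by
  have hev : ∀ (m : ℕ), ev φ M ((Matrix.charpoly.univ ZBar (Fin n)).coeff m - MvPolynomial.C (Q.coeff m)) =
        M.charpoly.coeff m - φ (Q.coeff m) := by
    intro m
    unfold ev
    rw [MvPolynomial.eval₂_sub, MvPolynomial.eval₂_C]
    congr 1
    have := Matrix.charpoly.univ_coeff_eval₂Hom (Fin n) φ (fun ab : Fin n × Fin n => M ab.1 ab.2) m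
    exact this
  constructor
  · intro h
    ext m
    have := h _ ⟨m, rfl⟩
    rw [hev, sub_eq_zero] at this
    rw [this, coeff_map]
  · rintro h q ⟨m, rfl⟩
    rw [hev, h, coeff_map, sub_self]

/-- all elements have a characteristic polynomial from the given set -/
theorem all_charpoly (S : Finset ℕ) (PP : Finset ZBar[X]) (P : ℕ → ZBar[X])
    (hP : ∀ p : ℕ, p.Prime → p ∉ S → P p ∈ PP) {k : Type*} [Field k] (φ : ZBar →+* k)
    (ρ : GQ →* GL (Fin n) k) (ho : IsOpen (ρ.ker : Set GQ))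
    (hm : ∀ p : ℕ, p.Prime → p ∉ S → ∀ Q : Ideal ZBar, Q.IsMaximal → (p : ZBar) ∈ Q →
      ∀ σ : GQ, IsGeomFrob p Q σ → (ρ σ : Matrix (Fin n) (Fin n) k).charpoly = (P p).map φ)
    (g : GQ) : ∃ Q ∈ PP, (ρ g : Matrix (Fin n) (Fin n) k).charpoly = Q.map φ := by
  obtain ⟨p, hp, hpS, Q, hQ, hpQ, σ, hσ, τ, hτ⟩ := exists_frob ρ.ker ho S g
  refine ⟨P p, hP p hp hpS, ?_⟩
  rw [← hm p hp hpS Q hQ hpQ σ hσ]
  have h1 : ρ (τ * σ * τ⁻¹) = ρ g := by
    have : ρ (τ * σ * τ⁻¹ * g⁻¹) = 1 := hτ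
    rwa [map_mul, map_inv, mul_inv_eq_one] at this
  rw [← h1, map_mul, map_mul, map_inv]
  have := Matrix.charpoly_units_conj (ρ τ) (ρ σ : Matrix (Fin n) (Fin n) k)
  rw [Units.val_mul, Units.val_mul]
  rw [← this, Matrix.coe_units_inv]

/-- the order of the image is bounded -/
theorem bounded_gen (S : Finset ℕ) (T : Finset ZBar) (P : ℕ → ZBar[X])
    (hT : ∀ p : ℕ, p.Prime → p ∉ S → - (P p).coeff (n - 1) ∈ T) (hn : 0 < n)
    {k : Type*} [Field k] (hch : ∀ m : ℕ, 1 ≤ m → m ≤ n → (m : k) ≠ 0) (φ : ZBar →+* k)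
    (ρ : GQ →* GL (Fin n) k) (ho : IsOpen (ρ.ker : Set GQ)) (hss : IsSemisimpleRep ρ)
    (hm : ∀ p : ℕ, p.Prime → p ∉ S → ∀ Q : Ideal ZBar, Q.IsMaximal → (p : ZBar) ∈ Q →
      ∀ σ : GQ, IsGeomFrob p Q σ → (ρ σ : Matrix (Fin n) (Fin n) k).charpoly = (P p).map φ) :
    Nat.card (GQ ⧸ ρ.ker) ≤ 2 * T.card ^ (n ^ 2) := by
  classical
  obtain ⟨m, hm', μ, h1, h2, h3⟩ := exists_haar
  have hker : IsClosed (ρ.ker : Set GQ) := Subgroup.isClosed_of_isOpen _ ho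
  have hC : IsClosed {g : GQ | (ρ g : Matrix (Fin n) (Fin n) k).trace ∈ T.image φ} :=
    isClosed_preimage ρ ho {x | (x : Matrix (Fin n) (Fin n) k).trace ∈ T.image φ}
  have hn2 : (0 : ℝ) < (n : ℝ) ^ 2 := by positivity
  set c' : ℝ := 1 / (2 * (n : ℝ) ^ 2) with hc'
  have hc0 : 0 < c' := by positivity
  have hcn : c' * (n : ℝ) ^ 2 = 1 / 2 := by
    rw [hc']; field_simp
  have h0 : ∀ᶠ N : ℕ in atTop, (cnt ∅ N : ℝ) ≤ 0 * (Nat.primeCounting N : ℝ) := by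
    filter_upwards with N
    have : cnt ∅ N = 0 := by
      unfold cnt
      simp
    rw [this]; simp
  have hZ' := cnt_add_finite hc0 h0 S
  have hμ := haar_ge μ {g : GQ | (ρ g : Matrix (Fin n) (Fin n) k).trace ∈ T.image φ} hC
    (fun σ hσ τ => by
      show (ρ (τ * σ * τ⁻¹) : Matrix (Fin n) (Fin n) k).trace ∈ T.image φ
      rw [trace_conj_inv]; exact hσ) (∅ ∪ (S : Set ℕ)) c' hZ' (by
      intro p hp hpZ Q hQ hpQ σ hσ
      rw [Set.empty_union, Finset.mem_coe] at hpZ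
      show (ρ σ : Matrix (Fin n) (Fin n) k).trace ∈ T.image φ
      rw [trace_coeff hn, hm p hp hpZ Q hQ hpQ σ hσ, coeff_map, ← map_neg]
      exact Finset.mem_image_of_mem _ (hT p hp hpZ))
  have h4 := few_traces μ ρ hss hch (T.image φ) c' hker hC hμ (by rw [hcn]; norm_num)
  have h5 := h4.2
  rw [hcn] at h5
  have h6 : ((T.image φ).card : ℝ) ^ (n ^ 2) ≤ (T.card : ℝ) ^ (n ^ 2) :=
    pow_le_pow_left₀ (Nat.cast_nonneg _) (by exact_mod_cast Finset.card_image_le) _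
  have h7 : (Nat.card (GQ ⧸ ρ.ker) : ℝ) ≤ 2 * (T.card : ℝ) ^ (n ^ 2) := by linarith
  exact_mod_cast h7

theorem semisimple_comp {H : Type*} [Group H] {k : Type*} [Field k] (f : GQ →* H)
    (hf : Function.Surjective f) (r : H →* GL (Fin n) k) (hr : IsSemisimpleRep r) :
    IsSemisimpleRep (r.comp f) := by
  intro W hW
  obtain ⟨W', h1, h2⟩ := hr W (fun h w hw => by
    obtain ⟨g, rfl⟩ := hf h
    exact hW g w hw)
  exact ⟨W', fun g w hw => h1 (f g) w hw, h2⟩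

/-- residue maps above primes -/
def ResZ (l : ℕ) (k : Type) [Field k] (φ : ZBar →+* k) : Prop := CharP k l

theorem resZ_ok (d : ZBar) (hd : d ≠ 0) : {l : ℕ | ∃ (k : Type) (_ : Field k) (φ : ZBar →+* k),
    ResZ l k φ ∧ φ d = 0}.Finite := by
  obtain ⟨m, r, hm, hr⟩ := exists_int_mul hd
  refine (Set.finite_Iic m.natAbs).subset ?_
  rintro l ⟨k, _, φ, hch, h1⟩
  haveI : CharP k l := hch
  have h2 : φ (m : ZBar) = 0 := by rw [← hr, map_mul, h1, zero_mul]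
  rw [map_intCast, CharP.intCast_eq_zero_iff k l] at h2
  exact Nat.le_of_dvd (Int.natAbs_pos.2 hm) (Int.natCast_dvd.1 h2)

/-- finitely many polynomials are separated by the residue fields of large characteristic -/
theorem separatedZ (PP : Finset ZBar[X]) : ∃ B : ℕ, ∀ l : ℕ, B < l → ∀ (k : Type) [Field k]
    [CharP k l] (φ : ZBar →+* k), ∀ Q ∈ PP, ∀ Q' ∈ PP, Q.map φ = Q'.map φ → Q = Q' := by
  classical
  have key : ∀ x : ZBar[X] × ZBar[X], ∃ B : ℕ, ∀ l : ℕ, B < l → ∀ (k : Type) [Field k]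
      [CharP k l] (φ : ZBar →+* k), x.1.map φ = x.2.map φ → x.1 = x.2 := by
    rintro ⟨Q, Q'⟩
    by_cases h : Q = Q'
    · exact ⟨0, fun _ _ _ _ _ _ _ => h⟩
    · obtain ⟨m, hm⟩ : ∃ m, (Q - Q').coeff m ≠ 0 := by
        by_contra hcon
        push Not at hcon
        exact sub_ne_zero.2 h (by ext m; rw [hcon, coeff_zero])
      obtain ⟨B, hB⟩ := (resZ_ok _ hm).bddAbove
      refine ⟨B, fun l hl k _ _ φ h2 => ?_⟩
      exfalso
      have h3 : l ≤ B := hB ⟨k, inferInstance, φ, ‹CharP k l›, by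
        rw [← coeff_map, Polynomial.map_sub, sub_eq_zero.2 h2, coeff_zero]⟩
      omega
  choose B hB using key
  refine ⟨(PP ×ˢ PP).sup B, fun l hl k _ _ φ Q hQ Q' hQ' h => ?_⟩
  refine hB (Q, Q') l (lt_of_le_of_lt ?_ hl) k φ h
  exact Finset.le_sup (Finset.mem_product.2 ⟨hQ, hQ'⟩)

/-- **One residual representation of large characteristic suffices.** -/
theorem of_one (hn : 0 < n) (PP : Finset ZBar[X]) : ∃ B : ℕ, ∀ (S : Finset ℕ) (P : ℕ → ZBar[X]),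
    (∀ p : ℕ, p.Prime → p ∉ S → P p ∈ PP) → ∀ l : ℕ, B < l →
    ∀ (k : Type) [Field k] [CharP k l] (φ : ZBar →+* k) (ρ : GQ →* GL (Fin n) k),
    IsOpen (ρ.ker : Set GQ) → IsSemisimpleRep ρ →
    (∀ p : ℕ, p.Prime → p ∉ S → ∀ Q : Ideal ZBar, Q.IsMaximal → (p : ZBar) ∈ Q →
      ∀ σ : GQ, IsGeomFrob p Q σ → (ρ σ : Matrix (Fin n) (Fin n) k).charpoly = (P p).map φ) →
    ∀ {Ω : Type} [Field Ω] [IsAlgClosed Ω] (ι : ZBar →+* Ω), Function.Injective ι →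
    ∃ r : GQ →* GL (Fin n) Ω, ρ.ker ≤ r.ker ∧
      ∀ p : ℕ, p.Prime → p ∉ S → ∀ Q : Ideal ZBar, Q.IsMaximal → (p : ZBar) ∈ Q →
      ∀ σ : GQ, IsGeomFrob p Q σ → (r σ : Matrix (Fin n) (Fin n) Ω).charpoly = (P p).map ι := by
  classical
  set T : Finset ZBar := PP.image fun Q => - Q.coeff (n - 1) with hT
  obtain ⟨B₁, hB₁, hu⟩ := uniform ResZ (n := n) (T := {Q // Q ∈ PP}) (fun Q => Ceq n Q.1)
    (2 * T.card ^ (n ^ 2))
  obtain ⟨B₂, hB₂⟩ := hB₁.bddAbove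
  obtain ⟨B₃, hB₃⟩ := separatedZ PP
  refine ⟨max n (max B₂ B₃), ?_⟩
  intro S P hP l hl k _ _ φ ρ ho hss hm Ω _ _ ι hι
  have hln : n < l := lt_of_le_of_lt (le_max_left _ _) hl
  have hl2 : B₂ < l := lt_of_le_of_lt ((le_max_left _ _).trans (le_max_right _ _)) hl
  have hl3 : B₃ < l := lt_of_le_of_lt ((le_max_right _ _).trans (le_max_right _ _)) hl
  have hch : ∀ m : ℕ, 1 ≤ m → m ≤ n → (m : k) ≠ 0 := by
    intro m hm1 hmn h0
    rw [CharP.cast_eq_zero_iff k l] at h0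
    have := Nat.le_of_dvd (by omega) h0
    omega
  have hcard := bounded_gen S T P (fun p hp hpS => Finset.mem_image_of_mem _ (hP p hp hpS)) hn hch φ ρ
    ho hss hm
  haveI hfin : Finite (GQ ⧸ ρ.ker) := finite_quot ρ ho
  have hall := all_charpoly S PP P hP φ ρ ho hm
  choose F hF1 hF2 using hall
  let F' : GQ ⧸ ρ.ker → {Q // Q ∈ PP} := fun h => ⟨F h.out, hF1 h.out⟩
  have hF' : ∀ g : GQ, (ρ g : Matrix (Fin n) (Fin n) k).charpoly =
      (F' (QuotientGroup.mk g) : {Q // Q ∈ PP}).1.map φ := by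
    intro g
    have h1 : ((QuotientGroup.mk g : GQ ⧸ ρ.ker).out)⁻¹ * g ∈ ρ.ker := by
      rw [← QuotientGroup.eq]; exact QuotientGroup.out_eq' _
    have h2 : ρ ((QuotientGroup.mk g : GQ ⧸ ρ.ker).out) = ρ g := by
      have : ρ (((QuotientGroup.mk g : GQ ⧸ ρ.ker).out)⁻¹ * g) = 1 := h1
      rwa [map_mul, map_inv, inv_mul_eq_one] at this
    rw [← h2]
    exact hF2 _
  have hbar : Bar ResZ (n := n) (fun Q : {Q // Q ∈ PP} => Ceq n Q.1) (GQ ⧸ ρ.ker) F' l := by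
    refine ⟨k, inferInstance, φ, QuotientGroup.kerLift ρ, ‹CharP k l›, QuotientGroup.kerLift_injective ρ, ?_⟩
    intro h
    obtain ⟨g, rfl⟩ := QuotientGroup.mk_surjective h
    rw [ceq_iff]
    exact hF' g
  have hinf := hu (GQ ⧸ ρ.ker) hcard F' l (fun h => absurd (hB₂ h) (by omega)) hbar
  obtain ⟨r, hr⟩ := lift_of_infinite ResZ (fun Q : {Q // Q ∈ PP} => Ceq n Q.1) resZ_ok F' hinf ι hι
  refine ⟨r.comp (QuotientGroup.mk' ρ.ker), ?_, ?_⟩
  · intro g hg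
    rw [MonoidHom.mem_ker, MonoidHom.comp_apply]
    have : QuotientGroup.mk' ρ.ker g = 1 := (QuotientGroup.eq_one_iff g).2 hg
    rw [this, map_one]
  · intro p hp hpS Q hQ hpQ σ hσ
    have h1 := hr (QuotientGroup.mk σ)
    rw [ceq_iff] at h1
    have h2 : P p = (F' (QuotientGroup.mk σ) : {Q // Q ∈ PP}).1 := by
      refine hB₃ l hl3 k φ _ (hP p hp hpS) _ (F' (QuotientGroup.mk σ)).2 ?_
      rw [← hm p hp hpS Q hQ hpQ σ hσ, hF' σ]
    rw [h2]
    exact h1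

/-- **Reduction modulo all large primes.** -/
theorem to_one (hn : 0 < n) (PP : Finset ZBar[X]) : ∃ m : ℕ, 0 < m ∧ ∀ (S : Finset ℕ) (P : ℕ → ZBar[X]),
    (∀ p : ℕ, p.Prime → p ∉ S → P p ∈ PP) →
    ∀ (ι : ZBar →+* ℂ), Function.Injective ι → ∀ (r : GQ →* GL (Fin n) ℂ), IsOpen (r.ker : Set GQ) →
    (∀ p : ℕ, p.Prime → p ∉ S → ∀ Q : Ideal ZBar, Q.IsMaximal → (p : ZBar) ∈ Q →
      ∀ σ : GQ, IsGeomFrob p Q σ → (r σ : Matrix (Fin n) (Fin n) ℂ).charpoly = (P p).map ι) →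
    ∀ (k : Type) [Field k] (φ : ZBar →+* k), φ (m : ZBar) ≠ 0 →
    ∃ ρ : GQ →* GL (Fin n) k, r.ker ≤ ρ.ker ∧ IsSemisimpleRep ρ ∧
      ∀ p : ℕ, p.Prime → p ∉ S → ∀ Q : Ideal ZBar, Q.IsMaximal → (p : ZBar) ∈ Q →
      ∀ σ : GQ, IsGeomFrob p Q σ → (ρ σ : Matrix (Fin n) (Fin n) k).charpoly = (P p).map φ := by
  classical
  set T : Finset ZBar := PP.image fun Q => - Q.coeff (n - 1) with hT
  obtain ⟨m, hm, hu⟩ := uniform_red (n := n) (T := {Q // Q ∈ PP}) (fun Q => Ceq n Q.1)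
    (2 * T.card ^ (n ^ 2))
  refine ⟨m, hm, ?_⟩
  intro S P hP ι hι r ho hr k _ φ hφ
  haveI hfin : Finite (GQ ⧸ r.ker) := finite_quot r ho
  have hss : IsSemisimpleRep r := semisimple_of_finite r hfin
  have hch : ∀ m : ℕ, 1 ≤ m → m ≤ n → (m : ℂ) ≠ 0 := by
    intro m hm1 _ h0
    rw [Nat.cast_eq_zero] at h0
    omega
  have hcard := bounded_gen S T P (fun p hp hpS => Finset.mem_image_of_mem _ (hP p hp hpS)) hn hch ι r
    ho hss hr
  have hall := all_charpoly S PP P hP ι r ho hr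
  choose F hF1 hF2 using hall
  let F' : GQ ⧸ r.ker → {Q // Q ∈ PP} := fun h => ⟨F h.out, hF1 h.out⟩
  have hF' : ∀ g : GQ, (r g : Matrix (Fin n) (Fin n) ℂ).charpoly =
      (F' (QuotientGroup.mk g) : {Q // Q ∈ PP}).1.map ι := by
    intro g
    have h1 : ((QuotientGroup.mk g : GQ ⧸ r.ker).out)⁻¹ * g ∈ r.ker := by
      rw [← QuotientGroup.eq]; exact QuotientGroup.out_eq' _
    have h2 : r ((QuotientGroup.mk g : GQ ⧸ r.ker).out) = r g := by
      have : r (((QuotientGroup.mk g : GQ ⧸ r.ker).out)⁻¹ * g) = 1 := h1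
      rwa [map_mul, map_inv, inv_mul_eq_one] at this
    rw [← h2]
    exact hF2 _
  letI : TopologicalSpace (GQ ⧸ r.ker) := ⊥
  haveI : DiscreteTopology (GQ ⧸ r.ker) := ⟨rfl⟩
  obtain ⟨r₀, -, hr₀⟩ := exists_rep (I := ℕ) (k := fun _ => ℂ) (fun _ => ι)
    (fun d hd => Eventually.of_forall fun _ h0 => hd (hι (by rw [h0, map_zero])))
    (fun _ => QuotientGroup.kerLift r) (⊥ : Subgroup (GQ ⧸ r.ker)) (isOpen_discrete _)
    (Eventually.of_forall fun _ => (MonoidHom.ker_eq_bot_iff _).2 (QuotientGroup.kerLift_injective r))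
    (algebraMap ZBar QBar) RingOfIntegers.coe_injective
  obtain ⟨ρ, h1, h2⟩ := hu (GQ ⧸ r.ker) hcard F' ⟨r₀, fun h q hq => by
    refine hr₀ h q (Eventually.of_forall fun _ => ?_)
    obtain ⟨g, rfl⟩ := QuotientGroup.mk_surjective h
    revert q
    rw [ceq_iff]
    exact hF' g⟩ k φ hφ
  refine ⟨ρ.comp (QuotientGroup.mk' r.ker), ?_, ?_, ?_⟩
  · intro g hg
    rw [MonoidHom.mem_ker, MonoidHom.comp_apply]
    have : QuotientGroup.mk' r.ker g = 1 := (QuotientGroup.eq_one_iff g).2 hg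
    rw [this, map_one]
  · exact semisimple_comp _ (QuotientGroup.mk'_surjective _) ρ h1
  · intro p hp hpS Q hQ hpQ σ hσ
    have h3 := h2 (QuotientGroup.mk σ)
    rw [ceq_iff] at h3
    have h4 : P p = (F' (QuotientGroup.mk σ) : {Q // Q ∈ PP}).1 := by
      apply Polynomial.map_injective ι hι
      rw [← hr p hp hpS Q hQ hpQ σ hσ, hF' σ]
    rw [h4]
    exact h3

end Pool.Agent.Q92.DS
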