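import Pool.Agent.Q92.DS.Uni
import Pool.Agent.Q92.DS.One
import Pool.Agent.Q92.DS.NF

/-! Uniform Deligne-Serre over number fields, with arbitrary equations. -/

set_option autoImplicit false
set_option linter.all false

namespace Pool.Agent.Q92.DS

open Polynomial Filter NumberField MeasureTheory IsDedekindDomain
open Pool.Agent.Y800 (IsSemisimpleRep QBar ZBar semisimple_of_finite)
open Pool.Agent.W401.Cheb (GK IsFrob IsInert)

variable {E : Type} [Field E] [NumberField E] {n : ℕ}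

/-- the equations for matrices with characteristic polynomial `Q` -/
def CeqE (n : ℕ) {R : Type} [CommRing R] (Q : R[X]) : Set (MvPolynomial (Fin n × Fin n) R) :=
  {q | ∃ m : ℕ, q = (Matrix.charpoly.univ R (Fin n)).coeff m - MvPolynomial.C (Q.coeff m)}

theorem ceqE_iff {R : Type} [CommRing R] {k : Type*} [Field k] (φ : R →+* k)
    (M : Matrix (Fin n) (Fin n) k) (Q : R[X]) :
    (∀ q ∈ CeqE n Q, ev φ M q = 0) ↔ M.charpoly = Q.map φ := by
  have hev : ∀ (m : ℕ), ev φ M ((Matrix.charpoly.univ R (Fin n)).coeff m - MvPolynomial.C (Q.coeff m)) =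
        M.charpoly.coeff m - φ (Q.coeff m) := by
    intro m
    unfold ev
    rw [MvPolynomial.eval₂_sub, MvPolynomial.eval₂_C]
    congr 1
    have := Matrix.charpoly.univ_coeff_eval₂Hom (Fin n) φ (fun ab : Fin n × Fin n => M ab.1 ab.2) m
    exact this
  constructor
  · intro h
    ext m
    have := h _ ⟨m, rfl⟩
    rw [hev, sub_eq_zero] at this
    rw [this, coeff_map]
  · rintro h q ⟨m, rfl⟩
    rw [hev, h, coeff_map, sub_self]

/-- the order of the image is bounded -/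
theorem bounded_genK {K : Type} [Field K] [NumberField K] (S : Finset (HeightOneSpectrum (𝓞 K)))
    {k : Type} [Field k] (hch : ∀ m : ℕ, 1 ≤ m → m ≤ n → (m : k) ≠ 0) (T : Finset k) (hn : 0 < n)
    (ρ : GK K →* GL (Fin n) k) (ho : IsOpen (ρ.ker : Set (GK K))) (hss : IsSemisimpleRep ρ)
    (hm : ∀ v : HeightOneSpectrum (𝓞 K), v ∉ S → ∀ σ : GK K, IsFrob v σ →
      (ρ σ : Matrix (Fin n) (Fin n) k).trace ∈ T) :
    Nat.card (GK K ⧸ ρ.ker) ≤ 2 * T.card ^ (n ^ 2) := by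
  have hn2 : (0 : ℝ) < (n : ℝ) ^ 2 := by positivity
  set c' : ℝ := 1 / (2 * (n : ℝ) ^ 2) with hc'
  have hc0 : 0 < c' := by positivity
  have hcn : c' * (n : ℝ) ^ 2 = 1 / 2 := by
    rw [hc']; field_simp
  have h4 := boundedK (S : Set (HeightOneSpectrum (𝓞 K))) c' (by rw [hcn]; norm_num) (cntK_finite S hc0)
    hch ρ ho hss T (fun v hv σ hσ => hm v hv σ hσ)
  have h5 := h4.2
  rw [hcn] at h5
  have h7 : (Nat.card (GK K ⧸ ρ.ker) : ℝ) ≤ 2 * (T.card : ℝ) ^ (n ^ 2) := by linarith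
  exact_mod_cast h7

/-- residue maps at the primes of `E` -/
def ResE (l : HeightOneSpectrum (𝓞 E)) (k : Type) [Field k] (φ : 𝓞 E →+* k) : Prop :=
  RingHom.ker φ = l.asIdeal

theorem resE_ok (d : 𝓞 E) (hd : d ≠ 0) : {l : HeightOneSpectrum (𝓞 E) |
    ∃ (k : Type) (_ : Field k) (φ : 𝓞 E →+* k), ResE l k φ ∧ φ d = 0}.Finite := by
  refine (finite_mem d hd).subset ?_
  rintro l ⟨k, _, φ, h1, h2⟩
  rw [← RingHom.mem_ker, h1] at h2
  exact h2

/-- the conditions: a set of sets of equations, and a set of classes -/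
abbrev Cond (n : ℕ) (R : Type) [CommRing R] (LL : Finset (Set (MvPolynomial (Fin n × Fin n) R)))
    (SS : Finset (Set (MvPolynomial (Fin n × Fin n) R) × R[X])) : Type :=
  Set {x // x ∈ LL} × Set {x // x ∈ SS}

def CondEq {R : Type} [CommRing R] {LL : Finset (Set (MvPolynomial (Fin n × Fin n) R))}
    {SS : Finset (Set (MvPolynomial (Fin n × Fin n) R) × R[X])} (c : Cond n R LL SS) :
    Set (MvPolynomial (Fin n × Fin n) R) :=
  {q | (∃ x ∈ c.1, q ∈ x.1) ∨ ∃ x ∈ c.2, q ∈ x.1.1 ∨ q ∈ CeqE n x.1.2}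

/-- the conditions at a coset -/
def condF {R : Type} [CommRing R] {LL : Finset (Set (MvPolynomial (Fin n × Fin n) R))}
    {SS : Finset (Set (MvPolynomial (Fin n × Fin n) R) × R[X])} {K : Type} [Field K] [NumberField K]
    (LG : GK K → Set (MvPolynomial (Fin n × Fin n) R)) (hLG : ∀ g, LG g ∈ LL)
    (S : Set (HeightOneSpectrum (𝓞 K)))
    (st : HeightOneSpectrum (𝓞 K) → Set (MvPolynomial (Fin n × Fin n) R) × R[X])
    (hst : ∀ v, v ∉ S → st v ∈ SS) (U : Subgroup (GK K)) (h : GK K ⧸ U) : Cond n R LL SS :=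
  ({x | ∃ g : GK K, QuotientGroup.mk g = h ∧ x = ⟨LG g, hLG g⟩},
    {x | ∃ (σ : GK K) (v : HeightOneSpectrum (𝓞 K)) (hv : v ∉ S), IsFrob v σ ∧
      QuotientGroup.mk σ = h ∧ x = ⟨st v, hst v hv⟩})

theorem condF_iff {R : Type} [CommRing R] {LL : Finset (Set (MvPolynomial (Fin n × Fin n) R))}
    {SS : Finset (Set (MvPolynomial (Fin n × Fin n) R) × R[X])} {K : Type} [Field K] [NumberField K]
    (LG : GK K → Set (MvPolynomial (Fin n × Fin n) R)) (hLG : ∀ g, LG g ∈ LL)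
    (S : Set (HeightOneSpectrum (𝓞 K)))
    (st : HeightOneSpectrum (𝓞 K) → Set (MvPolynomial (Fin n × Fin n) R) × R[X])
    (hst : ∀ v, v ∉ S → st v ∈ SS) (U : Subgroup (GK K)) [U.Normal]
    {k : Type*} [Field k] (φ : R →+* k) (r : GK K ⧸ U →* GL (Fin n) k) :
    (∀ h, ∀ q ∈ CondEq (condF LG hLG S st hst U h), ev φ (r h : Matrix (Fin n) (Fin n) k) q = 0) ↔
    (∀ g : GK K, ∀ q ∈ LG g, ev φ (r (QuotientGroup.mk g) : Matrix (Fin n) (Fin n) k) q = 0) ∧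
    ∀ v, v ∉ S → ∀ σ : GK K, IsFrob v σ →
      (∀ q ∈ (st v).1, ev φ (r (QuotientGroup.mk σ) : Matrix (Fin n) (Fin n) k) q = 0) ∧
      (r (QuotientGroup.mk σ) : Matrix (Fin n) (Fin n) k).charpoly = (st v).2.map φ := by
  constructor
  · intro h
    refine ⟨fun g q hq => h _ q (Or.inl ⟨⟨LG g, hLG g⟩, ⟨g, rfl, rfl⟩, hq⟩), fun v hv σ hσ => ⟨?_, ?_⟩⟩
    · intro q hq
      exact h _ q (Or.inr ⟨⟨st v, hst v hv⟩, ⟨σ, v, hv, hσ, rfl, rfl⟩, Or.inl hq⟩)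
    · rw [← ceqE_iff]
      intro q hq
      exact h _ q (Or.inr ⟨⟨st v, hst v hv⟩, ⟨σ, v, hv, hσ, rfl, rfl⟩, Or.inr hq⟩)
  · rintro ⟨h1, h2⟩ h q (⟨x, ⟨g, rfl, rfl⟩, hq⟩ | ⟨x, ⟨σ, v, hv, hσ, rfl, rfl⟩, hq⟩)
    · exact h1 g q hq
    · rcases hq with hq | hq
      · exact (h2 v hv σ hσ).1 q hq
      · exact (ceqE_iff φ _ _).2 (h2 v hv σ hσ).2 q hq

/-- **One residual parameter suffices.** -/
theorem of_oneK (hn : 0 < n) (LL : Finset (Set (MvPolynomial (Fin n × Fin n) (𝓞 E))))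
    (SS : Finset (Set (MvPolynomial (Fin n × Fin n) (𝓞 E)) × (𝓞 E)[X])) :
    ∃ B : Set (HeightOneSpectrum (𝓞 E)), B.Finite ∧ ∀ (K : Type) [Field K] [NumberField K]
    (LG : GK K → Set (MvPolynomial (Fin n × Fin n) (𝓞 E))) (hLG : ∀ g, LG g ∈ LL)
    (S : Finset (HeightOneSpectrum (𝓞 K)))
    (st : HeightOneSpectrum (𝓞 K) → Set (MvPolynomial (Fin n × Fin n) (𝓞 E)) × (𝓞 E)[X])
    (hst : ∀ v, v ∉ S → st v ∈ SS) (l : HeightOneSpectrum (𝓞 E)), l ∉ B →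
    ∀ (k : Type) [Field k] (φ : 𝓞 E →+* k), RingHom.ker φ = l.asIdeal →
    ∀ (ρ : GK K →* GL (Fin n) k), IsOpen (ρ.ker : Set (GK K)) → IsSemisimpleRep ρ →
    (∀ g : GK K, ∀ q ∈ LG g, ev φ (ρ g : Matrix (Fin n) (Fin n) k) q = 0) →
    (∀ v, v ∉ S → ∀ σ : GK K, IsFrob v σ →
      (∀ q ∈ (st v).1, ev φ (ρ σ : Matrix (Fin n) (Fin n) k) q = 0) ∧
      (ρ σ : Matrix (Fin n) (Fin n) k).charpoly = (st v).2.map φ) →
    ∀ {Ω : Type} [Field Ω] [IsAlgClosed Ω] (ι : 𝓞 E →+* Ω), Function.Injective ι →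
    ∃ r : GK K →* GL (Fin n) Ω, ρ.ker ≤ r.ker ∧
      (∀ g : GK K, ∀ q ∈ LG g, ev ι (r g : Matrix (Fin n) (Fin n) Ω) q = 0) ∧
      (∀ v, v ∉ S → ∀ σ : GK K, IsFrob v σ →
        (∀ q ∈ (st v).1, ev ι (r σ : Matrix (Fin n) (Fin n) Ω) q = 0) ∧
        (r σ : Matrix (Fin n) (Fin n) Ω).charpoly = (st v).2.map ι) := by
  classical
  set T : Finset (𝓞 E) := SS.image fun Q => - Q.2.coeff (n - 1) with hT
  haveI : Finite (Cond n (𝓞 E) LL SS) := inferInstance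
  obtain ⟨B₁, hB₁, hu⟩ := uniform ResE (n := n) (T := Cond n (𝓞 E) LL SS) CondEq
    (2 * T.card ^ (n ^ 2))
  have hfac : ((n.factorial : ℕ) : 𝓞 E) ≠ 0 := by exact_mod_cast Nat.factorial_ne_zero n
  refine ⟨B₁ ∪ {l | ((n.factorial : ℕ) : 𝓞 E) ∈ l.asIdeal}, hB₁.union (finite_mem _ hfac), ?_⟩
  intro K _ _ LG hLG S st hst l hl k _ φ hφ ρ ho hss hm1 hm2 Ω _ _ ι hι
  rw [Set.mem_union, not_or] at hl
  obtain ⟨hl1, hl2⟩ := hl
  have hfk : φ ((n.factorial : ℕ) : 𝓞 E) ≠ 0 := by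
    intro h0
    rw [← RingHom.mem_ker, hφ] at h0
    exact hl2 h0
  have hch : ∀ m : ℕ, 1 ≤ m → m ≤ n → (m : k) ≠ 0 := by
    intro m hm1 hmn h0
    apply hfk
    obtain ⟨b, hb⟩ := Nat.dvd_factorial (by omega) hmn
    rw [map_natCast, hb, Nat.cast_mul, h0, zero_mul]
  have hcard : Nat.card (GK K ⧸ ρ.ker) ≤ 2 * T.card ^ (n ^ 2) := by
    refine (bounded_genK S hch (T.image φ) hn ρ ho hss ?_).trans ?_
    · intro v hv σ hσ
      rw [trace_coeff hn, (hm2 v hv σ hσ).2, coeff_map, ← map_neg]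
      exact Finset.mem_image_of_mem _ (Finset.mem_image_of_mem (fun Q : Set (MvPolynomial (Fin n × Fin n)
        (𝓞 E)) × (𝓞 E)[X] => - Q.2.coeff (n - 1)) (hst v hv))
    · exact Nat.mul_le_mul_left _ (Nat.pow_le_pow_left Finset.card_image_le _)
  haveI hfin : Finite (GK K ⧸ ρ.ker) := Subgroup.quotient_finite_of_isOpen _ ho
  have hiff := condF_iff LG hLG S st hst ρ.ker φ (QuotientGroup.kerLift ρ)
  have hbar : Bar ResE (n := n) CondEq (GK K ⧸ ρ.ker) (condF LG hLG S st hst ρ.ker) l := by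
    refine ⟨k, inferInstance, φ, QuotientGroup.kerLift ρ, hφ, QuotientGroup.kerLift_injective ρ, ?_⟩
    exact hiff.2 ⟨hm1, hm2⟩
  have hinf := hu (GK K ⧸ ρ.ker) hcard _ l hl1 hbar
  obtain ⟨r, hr⟩ := lift_of_infinite ResE CondEq resE_ok (condF LG hLG S st hst ρ.ker) hinf ι hι
  rw [condF_iff] at hr
  refine ⟨r.comp (QuotientGroup.mk' ρ.ker), ?_, hr.1, hr.2⟩
  intro g hg
  rw [MonoidHom.mem_ker, MonoidHom.comp_apply]
  have : QuotientGroup.mk' ρ.ker g = 1 := (QuotientGroup.eq_one_iff g).2 hg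
  rw [this, map_one]

theorem semisimple_compK {G H : Type*} [Group G] [Group H] {k : Type*} [Field k] (f : G →* H)
    (hf : Function.Surjective f) (r : H →* GL (Fin n) k) (hr : IsSemisimpleRep r) :
    IsSemisimpleRep (r.comp f) := by
  intro W hW
  obtain ⟨W', h1, h2⟩ := hr W (fun h w hw => by
    obtain ⟨g, rfl⟩ := hf h
    exact hW g w hw)
  exact ⟨W', fun g w hw => h1 (f g) w hw, h2⟩

/-- **Reduction modulo all but finitely many places, uniformly.** -/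
theorem to_oneK (hn : 0 < n) (LL : Finset (Set (MvPolynomial (Fin n × Fin n) (𝓞 E))))
    (SS : Finset (Set (MvPolynomial (Fin n × Fin n) (𝓞 E)) × (𝓞 E)[X])) (j : E →+* QBar) :
    ∃ m : ℕ, 0 < m ∧ ∀ (K : Type) [Field K] [NumberField K]
    (LG : GK K → Set (MvPolynomial (Fin n × Fin n) (𝓞 E))) (hLG : ∀ g, LG g ∈ LL)
    (S : Finset (HeightOneSpectrum (𝓞 K)))
    (st : HeightOneSpectrum (𝓞 K) → Set (MvPolynomial (Fin n × Fin n) (𝓞 E)) × (𝓞 E)[X])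
    (hst : ∀ v, v ∉ S → st v ∈ SS) (r : GK K →* GL (Fin n) QBar), IsOpen (r.ker : Set (GK K)) →
    (∀ g : GK K, ∀ q ∈ LG g, ev (j.comp (algebraMap (𝓞 E) E)) (r g : Matrix (Fin n) (Fin n) QBar) q = 0) →
    (∀ v, v ∉ S → ∀ σ : GK K, IsFrob v σ →
      (∀ q ∈ (st v).1, ev (j.comp (algebraMap (𝓞 E) E)) (r σ : Matrix (Fin n) (Fin n) QBar) q = 0) ∧
      (r σ : Matrix (Fin n) (Fin n) QBar).charpoly = (st v).2.map (j.comp (algebraMap (𝓞 E) E))) →
    ∀ (k : Type) [Field k] (ψ : ZBar →+* k), ψ (m : ZBar) ≠ 0 →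
    ∃ ρ : GK K →* GL (Fin n) k, r.ker ≤ ρ.ker ∧ IsSemisimpleRep ρ ∧
      (∀ g : GK K, ∀ q ∈ LG g, ev (ψ.comp (RingOfIntegers.mapRingHom j))
        (ρ g : Matrix (Fin n) (Fin n) k) q = 0) ∧
      (∀ v, v ∉ S → ∀ σ : GK K, IsFrob v σ →
        (∀ q ∈ (st v).1, ev (ψ.comp (RingOfIntegers.mapRingHom j)) (ρ σ : Matrix (Fin n) (Fin n) k) q = 0) ∧
        (ρ σ : Matrix (Fin n) (Fin n) k).charpoly = (st v).2.map (ψ.comp (RingOfIntegers.mapRingHom j))) := by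
  classical
  set f : 𝓞 E →+* ZBar := RingOfIntegers.mapRingHom j with hf
  have hcomp : (algebraMap ZBar QBar).comp f = j.comp (algebraMap (𝓞 E) E) := RingHom.ext fun x => rfl
  set T : Finset (𝓞 E) := SS.image fun Q => - Q.2.coeff (n - 1) with hT
  haveI : Finite (Cond n (𝓞 E) LL SS) := inferInstance
  obtain ⟨m, hm, hu⟩ := uniform_red (n := n) (T := Cond n (𝓞 E) LL SS)
    (fun c => (MvPolynomial.map f) '' CondEq c) (2 * T.card ^ (n ^ 2))
  refine ⟨m, hm, ?_⟩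
  intro K _ _ LG hLG S st hst r ho hr1 hr2 k _ ψ hψ
  haveI hfin : Finite (GK K ⧸ r.ker) := Subgroup.quotient_finite_of_isOpen _ ho
  have hss : IsSemisimpleRep r := semisimple_of_finite r hfin
  have hch : ∀ m : ℕ, 1 ≤ m → m ≤ n → (m : QBar) ≠ 0 := by
    intro m hm1 _ h0
    have h1 : (m : QBar) = ((0 : ℕ) : QBar) := by rw [h0, Nat.cast_zero]
    have h2 := Nat.cast_injective h1
    omega
  have hcard : Nat.card (GK K ⧸ r.ker) ≤ 2 * T.card ^ (n ^ 2) := by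
    refine (bounded_genK S hch (T.image (j.comp (algebraMap (𝓞 E) E))) hn r ho hss ?_).trans ?_
    · intro v hv σ hσ
      rw [trace_coeff hn, (hr2 v hv σ hσ).2, coeff_map, ← map_neg]
      exact Finset.mem_image_of_mem _ (Finset.mem_image_of_mem (fun Q : Set (MvPolynomial (Fin n × Fin n)
        (𝓞 E)) × (𝓞 E)[X] => - Q.2.coeff (n - 1)) (hst v hv))
    · exact Nat.mul_le_mul_left _ (Nat.pow_le_pow_left Finset.card_image_le _)
  have hev : ∀ {S : Type} [CommRing S] (g : ZBar →+* S) (M : Matrix (Fin n) (Fin n) S)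
      (q : MvPolynomial (Fin n × Fin n) (𝓞 E)), ev g M (MvPolynomial.map f q) = ev (g.comp f) M q := by
    intro S _ g M q
    unfold ev
    rw [MvPolynomial.eval₂_map]
  have hiff := condF_iff LG hLG S st hst r.ker (j.comp (algebraMap (𝓞 E) E)) (QuotientGroup.kerLift r)
  obtain ⟨ρ, h1, h2⟩ := hu (GK K ⧸ r.ker) hcard (condF LG hLG S st hst r.ker)
    ⟨QuotientGroup.kerLift r, fun h q hq => by
      obtain ⟨q', hq', rfl⟩ := hq
      rw [hev, hcomp]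
      exact hiff.2 ⟨hr1, hr2⟩ h q' hq'⟩ k ψ hψ
  have h3 := (condF_iff LG hLG S st hst r.ker (ψ.comp f) ρ).1 (fun h q hq => by
    have := h2 h (MvPolynomial.map f q) ⟨q, hq, rfl⟩
    rwa [hev] at this)
  refine ⟨ρ.comp (QuotientGroup.mk' r.ker), ?_, ?_, h3.1, h3.2⟩
  · intro g hg
    rw [MonoidHom.mem_ker, MonoidHom.comp_apply]
    have : QuotientGroup.mk' r.ker g = 1 := (QuotientGroup.eq_one_iff g).2 hg
    rw [this, map_one]
  · exact semisimple_compK _ (QuotientGroup.mk'_surjective _) ρ h1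

end Pool.Agent.Q92.DS
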