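import Pool.Agent.Q92.DS.Core
import Pool.Agent.Y800.Frob2
import Pool.Agent.Y800.Ext

/-! Reduction of representations with finite image modulo almost all primes. -/

set_option autoImplicit false
set_option linter.all false

namespace Pool.Agent.Q92.DS

open Polynomial Filter NumberField Pool.Agent.Y800

/-- **Maschke** in characteristic prime to the order of the image. -/
theorem maschke {k : Type*} [Field k] {n : ℕ} {G : Type*} [Group G] (ρ : G →* GL (Fin n) k)
    (hfin : Finite (G ⧸ ρ.ker)) (hc : (Nat.card (G ⧸ ρ.ker) : k) ≠ 0) : IsSemisimpleRep ρ := by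
  classical
  intro W hW
  have hR : Finite ρ.range := by
    have e := QuotientGroup.quotientKerEquivRange ρ
    exact Finite.of_equiv _ e.toEquiv
  have := Fintype.ofFinite ρ.range
  obtain ⟨π, hπ⟩ := W.exists_isCompl
  -- a projection onto `W`
  obtain ⟨p, hp⟩ : ∃ p : (Fin n → k) →ₗ[k] (Fin n → k), (∀ v, p v ∈ W) ∧ ∀ w ∈ W, p w = w := by
    refine ⟨W.subtype ∘ₗ W.projectionOnto π hπ, fun v => ?_, fun w hw => ?_⟩
    · exact (W.projectionOnto π hπ v).2
    · have := Submodule.projectionOnto_apply_left hπ ⟨w, hw⟩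
      rw [LinearMap.comp_apply]
      simp [this]
  obtain ⟨hp1, hp2⟩ := hp
  let L : ρ.range → ((Fin n → k) →ₗ[k] (Fin n → k)) := fun h =>
    Matrix.toLin' ((h.1 : GL (Fin n) k) : Matrix (Fin n) (Fin n) k)
  have hLmul : ∀ h h' : ρ.range, L (h * h') = L h ∘ₗ L h' := by
    intro h h'
    show Matrix.toLin' _ = _
    rw [Subgroup.coe_mul, Units.val_mul, Matrix.toLin'_mul]
  have hL1 : L 1 = LinearMap.id := by
    show Matrix.toLin' _ = _
    rw [Subgroup.coe_one, Units.val_one, Matrix.toLin'_one]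
  have hLW : ∀ (h : ρ.range), ∀ w ∈ W, L h w ∈ W := by
    rintro ⟨_, g, rfl⟩ w hw
    exact hW g w hw
  let q : (Fin n → k) →ₗ[k] (Fin n → k) :=
    (Fintype.card ρ.range : k)⁻¹ • ∑ h : ρ.range, L h ∘ₗ p ∘ₗ L h⁻¹
  have hcard : (Fintype.card ρ.range : k) ≠ 0 := by
    rw [← Nat.card_eq_fintype_card, ← Nat.card_congr (QuotientGroup.quotientKerEquivRange ρ).toEquiv]
    exact hc
  have hqW : ∀ v, q v ∈ W := by
    intro v
    show ((Fintype.card ρ.range : k)⁻¹ • ∑ h : ρ.range, L h ∘ₗ p ∘ₗ L h⁻¹) v ∈ W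
    rw [LinearMap.smul_apply, LinearMap.sum_apply]
    exact W.smul_mem _ (W.sum_mem fun h _ => hLW h _ (hp1 _))
  have hqw : ∀ w ∈ W, q w = w := by
    intro w hw
    show ((Fintype.card ρ.range : k)⁻¹ • ∑ h : ρ.range, L h ∘ₗ p ∘ₗ L h⁻¹) w = w
    rw [LinearMap.smul_apply, LinearMap.sum_apply]
    have h1 : ∀ h : ρ.range, (L h ∘ₗ p ∘ₗ L h⁻¹) w = w := by
      intro h
      rw [LinearMap.comp_apply, LinearMap.comp_apply, hp2 _ (hLW _ w hw), ← LinearMap.comp_apply,
        ← hLmul, mul_inv_cancel, hL1, LinearMap.id_apply]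
    rw [Finset.sum_congr rfl fun h _ => h1 h, Finset.sum_const, Finset.card_univ,
      ← Nat.cast_smul_eq_nsmul k, smul_smul, inv_mul_cancel₀ hcard, one_smul]
  have hqcomm : ∀ (h : ρ.range) v, q (L h v) = L h (q v) := by
    intro h v
    show ((Fintype.card ρ.range : k)⁻¹ • ∑ h : ρ.range, L h ∘ₗ p ∘ₗ L h⁻¹) (L h v) =
      L h (((Fintype.card ρ.range : k)⁻¹ • ∑ h : ρ.range, L h ∘ₗ p ∘ₗ L h⁻¹) v)
    rw [LinearMap.smul_apply, LinearMap.sum_apply, LinearMap.smul_apply, LinearMap.sum_apply,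
      map_smul, map_sum]
    congr 1
    refine Fintype.sum_equiv (Equiv.mulLeft h⁻¹) _ _ (fun g => ?_)
    show L g (p (L g⁻¹ (L h v))) = L h (L (h⁻¹ * g) (p (L (h⁻¹ * g)⁻¹ v)))
    rw [← LinearMap.comp_apply (L g⁻¹) (L h), ← hLmul, ← LinearMap.comp_apply (L h), ← hLmul,
      mul_inv_cancel_left, mul_inv_rev, inv_inv]
  refine ⟨LinearMap.ker q, ?_, ?_⟩
  · intro g w hw
    rw [LinearMap.mem_ker] at hw ⊢
    have := hqcomm ⟨ρ g, g, rfl⟩ w
    rw [hw, map_zero] at this
    exact this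
  · constructor
    · rw [Submodule.disjoint_def]
      intro x hx hx'
      rw [LinearMap.mem_ker, hqw x hx] at hx'
      exact hx'
    · rw [codisjoint_iff, eq_top_iff]
      intro v _
      rw [Submodule.mem_sup]
      refine ⟨q v, hqW v, v - q v, ?_, by abel⟩
      rw [LinearMap.mem_ker, map_sub, hqw _ (hqW v), sub_self]


/-- residue fields of the ring of all algebraic integers -/
theorem exists_residue (l : ℕ) (hl : l.Prime) : ∃ (k : Type) (_ : Field k) (_ : CharP k l)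
    (φ : ZBar →+* k), Function.Surjective φ := by
  obtain ⟨P, σ, hP, hpP, -⟩ := exists_geom hl
  letI : Field (ZBar ⧸ P) := Ideal.Quotient.field P
  refine ⟨ZBar ⧸ P, inferInstance, ?_, Ideal.Quotient.mk P, Ideal.Quotient.mk_surjective⟩
  have h0 : ((l : ℕ) : ZBar ⧸ P) = 0 := by
    have := Ideal.Quotient.eq_zero_iff_mem.2 hpP
    rwa [map_natCast] at this
  obtain ⟨q, hq⟩ := CharP.exists (ZBar ⧸ P)
  have h1 : q ∣ l := (CharP.cast_eq_zero_iff _ q l).1 h0
  rcases (Nat.dvd_prime hl).1 h1 with h | h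
  · exfalso
    subst h
    exact (CharP.char_ne_one (ZBar ⧸ P) 1) rfl
  · rw [← h]; exact hq

theorem ev_map {R : Type} {S T : Type*} [CommRing R] [CommRing S] [CommRing T] {n : ℕ} (f : R →+* S) (g : S →+* T)
    (M : Matrix (Fin n) (Fin n) S) (q : MvPolynomial (Fin n × Fin n) R) :
    g (ev f M q) = ev (g.comp f) (M.map g) q := by
  unfold ev
  exact MvPolynomial.eval₂_comp_left g f _ q

/-- **Reduction.** -/
theorem reduce {n : ℕ} (r : GQ →* GL (Fin n) QBar) (hr : IsOpen (r.ker : Set GQ)) :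
    ∃ m : ℕ, 0 < m ∧ ∀ (l : ℕ), l.Prime → ¬ l ∣ m → ∃ (k : Type) (_ : Field k) (_ : CharP k l)
      (φ : ZBar →+* k) (ρ : GQ →* GL (Fin n) k), r.ker ≤ ρ.ker ∧ IsSemisimpleRep ρ ∧
      ∀ (g : GQ) (q : MvPolynomial (Fin n × Fin n) ZBar),
        ev (algebraMap ZBar QBar) (r g : Matrix (Fin n) (Fin n) QBar) q = 0 →
        ev φ (ρ g : Matrix (Fin n) (Fin n) k) q = 0 := by
  classical
  haveI hfin : Finite (GQ ⧸ r.ker) := finite_quot r hr
  have hinj : Function.Injective (algebraMap ZBar QBar) := RingOfIntegers.coe_injective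
  -- a common denominator
  obtain ⟨m₀, hm₀, hden⟩ : ∃ m₀ : ℕ, 0 < m₀ ∧ ∀ (g : GQ) (a b : Fin n), ∃ z : ZBar,
      (m₀ : QBar) * (r g : Matrix (Fin n) (Fin n) QBar) a b = algebraMap ZBar QBar z := by
    have hE : (Set.range fun x : GQ × (Fin n × Fin n) =>
        (r x.1 : Matrix (Fin n) (Fin n) QBar) x.2.1 x.2.2).Finite := by
      have h1 : (Set.range fun x : (GQ ⧸ r.ker) × (Fin n × Fin n) =>
        (QuotientGroup.kerLift r x.1 : Matrix (Fin n) (Fin n) QBar) x.2.1 x.2.2).Finite :=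
        Set.finite_range _
      refine h1.subset ?_
      rintro _ ⟨⟨g, ab⟩, rfl⟩
      exact ⟨(QuotientGroup.mk g, ab), rfl⟩
    have key : ∀ E : Finset QBar, ∃ m₀ : ℕ, 0 < m₀ ∧ ∀ x ∈ E, ∃ z : ZBar,
        (m₀ : QBar) * x = algebraMap ZBar QBar z := by
      intro E
      induction E using Finset.induction_on with
      | empty => exact ⟨1, one_pos, by simp⟩
      | insert x E _ ih =>
        obtain ⟨m₁, h1, h2⟩ := ih
        obtain ⟨m, z, hm, hz⟩ := exists_int x
        refine ⟨m₁ * m.natAbs, Nat.mul_pos h1 (Int.natAbs_pos.2 hm), ?_⟩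
        intro y hy
        have habs : ∃ u : ℤ, (m.natAbs : QBar) = (u : QBar) * (m : QBar) := by
          have e : (m.natAbs : QBar) = ((m.natAbs : ℤ) : QBar) := (Int.cast_natCast _).symm
          rcases Int.natAbs_eq m with h | h
          · have h' : (m.natAbs : ℤ) = m := by omega
            exact ⟨1, by rw [e, h', Int.cast_one, one_mul]⟩
          · have h' : (m.natAbs : ℤ) = -m := by omega
            exact ⟨-1, by rw [e, h', Int.cast_neg, Int.cast_neg, Int.cast_one, neg_one_mul]⟩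
        rcases Finset.mem_insert.1 hy with h | h
        · subst h
          obtain ⟨u, hu⟩ := habs
          refine ⟨(m₁ : ZBar) * (u : ZBar) * z, ?_⟩
          have hz' : (m : QBar) * y = algebraMap ZBar QBar z := hz
          rw [Nat.cast_mul, hu, map_mul, map_mul, ← hz', map_natCast, map_intCast]
          ring
        · obtain ⟨z', hz'⟩ := h2 y h
          refine ⟨(m.natAbs : ZBar) * z', ?_⟩
          rw [Nat.cast_mul, map_mul, ← hz', map_natCast]
          ring
    obtain ⟨m₀, h1, h2⟩ := key hE.toFinset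
    refine ⟨m₀, h1, fun g a b => h2 _ ?_⟩
    rw [Set.Finite.mem_toFinset]
    exact ⟨(g, (a, b)), rfl⟩
  refine ⟨m₀ * Nat.card (GQ ⧸ r.ker), Nat.mul_pos hm₀ Nat.card_pos, fun l hl hlm => ?_⟩
  obtain ⟨k, hk, hch, φ, -⟩ := exists_residue l hl
  letI := hk
  haveI := hch
  have hφm : φ (m₀ : ZBar) ≠ 0 := by
    intro h
    rw [map_natCast, CharP.cast_eq_zero_iff k l] at h
    exact hlm (h.mul_right _)
  let Zm := Localization.Away (m₀ : ZBar)
  have hu1 : IsUnit (algebraMap ZBar QBar (m₀ : ZBar)) := by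
    rw [isUnit_iff_ne_zero, map_natCast]
    exact_mod_cast hm₀.ne'
  let f₁ : Zm →+* QBar := IsLocalization.Away.lift (m₀ : ZBar) hu1
  let f₂ : Zm →+* k := IsLocalization.Away.lift (m₀ : ZBar) (isUnit_iff_ne_zero.2 hφm)
  have hf₁ : ∀ z : ZBar, f₁ (algebraMap ZBar Zm z) = algebraMap ZBar QBar z :=
    fun z => IsLocalization.Away.lift_eq (m₀ : ZBar) hu1 z
  have hf₂ : ∀ z : ZBar, f₂ (algebraMap ZBar Zm z) = φ z :=
    fun z => IsLocalization.Away.lift_eq (m₀ : ZBar) _ z
  have hf₁inj : Function.Injective f₁ := by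
    rw [injective_iff_map_eq_zero]
    intro x hx
    obtain ⟨⟨z, ⟨s, hs⟩⟩, hzs⟩ := IsLocalization.surj (Submonoid.powers (m₀ : ZBar)) x
    have h1 : f₁ (x * algebraMap ZBar Zm s) = f₁ (algebraMap ZBar Zm z) := by rw [hzs]
    rw [map_mul, hx, zero_mul, hf₁] at h1
    have h2 : z = 0 := hinj (by rw [← h1, map_zero])
    have h3 : x * algebraMap ZBar Zm s = 0 := by rw [hzs, h2, map_zero]
    have h4 : IsUnit (algebraMap ZBar Zm s) := IsLocalization.map_units Zm ⟨s, hs⟩
    exact (h4.mul_left_eq_zero).1 h3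
  have hent : ∀ (g : GQ) (a b : Fin n), ∃ y : Zm, f₁ y = (r g : Matrix (Fin n) (Fin n) QBar) a b := by
    intro g a b
    obtain ⟨z, hz⟩ := hden g a b
    refine ⟨IsLocalization.mk' Zm z (⟨(m₀ : ZBar), Submonoid.mem_powers _⟩ : Submonoid.powers (m₀ : ZBar)), ?_⟩
    have h1 := IsLocalization.mk'_spec Zm z (⟨(m₀ : ZBar), Submonoid.mem_powers _⟩ : Submonoid.powers (m₀ : ZBar))
    have h2 := congrArg f₁ h1
    rw [map_mul, hf₁, hf₁, ← hz, map_natCast, mul_comm] at h2
    have h3 : (m₀ : QBar) ≠ 0 := by exact_mod_cast hm₀.ne'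
    exact mul_left_cancel₀ h3 h2
  choose M' hM' using hent
  let M : GQ → Matrix (Fin n) (Fin n) Zm := fun g => Matrix.of (M' g)
  have hM : ∀ g, (M g).map f₁ = (r g : Matrix (Fin n) (Fin n) QBar) := by
    intro g
    ext a b
    exact hM' g a b
  have hmapinj : Function.Injective fun X : Matrix (Fin n) (Fin n) Zm => X.map f₁ :=
    Matrix.map_injective hf₁inj
  have hM1 : M 1 = 1 := by
    apply hmapinj
    show (M 1).map f₁ = (1 : Matrix (Fin n) (Fin n) Zm).map f₁
    rw [hM, map_one, Units.val_one, Matrix.map_one f₁ (map_zero f₁) (map_one f₁)]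
  have hMmul : ∀ g h, M (g * h) = M g * M h := by
    intro g h
    apply hmapinj
    show (M (g * h)).map f₁ = (M g * M h).map f₁
    rw [Matrix.map_mul, hM, hM, hM, map_mul, Units.val_mul]
  let r0 : GQ →* Matrix (Fin n) (Fin n) Zm := { toFun := M, map_one' := hM1, map_mul' := hMmul }
  let ρ : GQ →* GL (Fin n) k :=
    (Matrix.GeneralLinearGroup.map f₂).comp (MonoidHom.toHomUnits r0)
  have hρ : ∀ g, (ρ g : Matrix (Fin n) (Fin n) k) = (M g).map f₂ := fun g => rfl
  have hker : r.ker ≤ ρ.ker := by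
    intro g hg
    rw [MonoidHom.mem_ker] at hg ⊢
    apply Units.ext
    have h1 : M g = 1 := by
      apply hmapinj
      show (M g).map f₁ = (1 : Matrix (Fin n) (Fin n) Zm).map f₁
      rw [hM, hg, Units.val_one, Matrix.map_one f₁ (map_zero f₁) (map_one f₁)]
    rw [hρ, h1, Units.val_one, Matrix.map_one f₂ (map_zero f₂) (map_one f₂)]
  have hfin2 : Finite (GQ ⧸ ρ.ker) := finite_quot ρ (Subgroup.isOpen_mono hker hr)
  refine ⟨k, hk, hch, φ, ρ, hker, maschke ρ hfin2 ?_, ?_⟩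
  · intro h0
    rw [CharP.cast_eq_zero_iff k l] at h0
    apply hlm
    refine Dvd.dvd.mul_left (h0.trans ?_) _
    have h1 : ρ.ker.index ∣ r.ker.index := Subgroup.index_dvd_of_le hker
    exact h1
  · intro g q hq
    have h1 : ev (algebraMap ZBar Zm) (M g) q = 0 := by
      apply hf₁inj
      rw [map_zero, ev_map, hM]
      have : f₁.comp (algebraMap ZBar Zm) = algebraMap ZBar QBar := RingHom.ext hf₁
      rw [this]
      exact hq
    have h2 := congrArg f₂ h1
    rw [map_zero, ev_map] at h2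
    have h3 : f₂.comp (algebraMap ZBar Zm) = φ := RingHom.ext hf₂
    rw [h3] at h2
    rw [hρ]
    exact h2

end Pool.Agent.Q92.DS
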