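import Pool.Agent.Q92.DS.Red

/-! Reduction of representations with finite image modulo almost all primes, for arbitrary groups. -/

set_option autoImplicit false
set_option linter.all false

namespace Pool.Agent.Q92.DS

open Polynomial Filter NumberField Pool.Agent.Y800

/-- **Reduction.** -/
theorem reduceG {GQ : Type} [Group GQ] {n : ℕ} (r : GQ →* GL (Fin n) QBar) (hfin : Finite (GQ ⧸ r.ker)) :
    ∃ m : ℕ, 0 < m ∧ ∀ (k : Type) (_ : Field k) (φ : ZBar →+* k), φ (m : ZBar) ≠ 0 →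
      ∃ (ρ : GQ →* GL (Fin n) k), r.ker ≤ ρ.ker ∧ IsSemisimpleRep ρ ∧
      ∀ (g : GQ) (q : MvPolynomial (Fin n × Fin n) ZBar),
        ev (algebraMap ZBar QBar) (r g : Matrix (Fin n) (Fin n) QBar) q = 0 →
        ev φ (ρ g : Matrix (Fin n) (Fin n) k) q = 0 := by
  classical
  haveI := hfin
  have hinj : Function.Injective (algebraMap ZBar QBar) := RingOfIntegers.coe_injective
  -- a common denominator
  obtain ⟨m₀, hm₀, hden⟩ : ∃ m₀ : ℕ, 0 < m₀ ∧ ∀ (g : GQ) (a b : Fin n), ∃ z : ZBar,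
      (m₀ : QBar) * (r g : Matrix (Fin n) (Fin n) QBar) a b = algebraMap ZBar QBar z := by
    have hE : (Set.range fun x : GQ × (Fin n × Fin n) =>
        (r x.1 : Matrix (Fin n) (Fin n) QBar) x.2.1 x.2.2).Finite := by
      have h1 : (Set.range fun x : (GQ ⧸ r.ker) × (Fin n × Fin n) =>
        (QuotientGroup.kerLift r x.1 : Matrix (Fin n) (Fin n) QBar) x.2.1 x.2.2).Finite :=
        Set.finite_range _
      refine h1.subset ?_
      rintro _ ⟨⟨g, ab⟩, rfl⟩
      exact ⟨(QuotientGroup.mk g, ab), rfl⟩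
    have key : ∀ E : Finset QBar, ∃ m₀ : ℕ, 0 < m₀ ∧ ∀ x ∈ E, ∃ z : ZBar,
        (m₀ : QBar) * x = algebraMap ZBar QBar z := by
      intro E
      induction E using Finset.induction_on with
      | empty => exact ⟨1, one_pos, by simp⟩
      | insert x E _ ih =>
        obtain ⟨m₁, h1, h2⟩ := ih
        obtain ⟨m, z, hm, hz⟩ := exists_int x
        refine ⟨m₁ * m.natAbs, Nat.mul_pos h1 (Int.natAbs_pos.2 hm), ?_⟩
        intro y hy
        have habs : ∃ u : ℤ, (m.natAbs : QBar) = (u : QBar) * (m : QBar) := by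
          have e : (m.natAbs : QBar) = ((m.natAbs : ℤ) : QBar) := (Int.cast_natCast _).symm
          rcases Int.natAbs_eq m with h | h
          · have h' : (m.natAbs : ℤ) = m := by omega
            exact ⟨1, by rw [e, h', Int.cast_one, one_mul]⟩
          · have h' : (m.natAbs : ℤ) = -m := by omega
            exact ⟨-1, by rw [e, h', Int.cast_neg, Int.cast_neg, Int.cast_one, neg_one_mul]⟩
        rcases Finset.mem_insert.1 hy with h | h
        · subst h
          obtain ⟨u, hu⟩ := habs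
          refine ⟨(m₁ : ZBar) * (u : ZBar) * z, ?_⟩
          have hz' : (m : QBar) * y = algebraMap ZBar QBar z := hz
          rw [Nat.cast_mul, hu, map_mul, map_mul, ← hz', map_natCast, map_intCast]
          ring
        · obtain ⟨z', hz'⟩ := h2 y h
          refine ⟨(m.natAbs : ZBar) * z', ?_⟩
          rw [Nat.cast_mul, map_mul, ← hz', map_natCast]
          ring
    obtain ⟨m₀, h1, h2⟩ := key hE.toFinset
    refine ⟨m₀, h1, fun g a b => h2 _ ?_⟩
    rw [Set.Finite.mem_toFinset]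
    exact ⟨(g, (a, b)), rfl⟩
  refine ⟨m₀ * Nat.card (GQ ⧸ r.ker), Nat.mul_pos hm₀ Nat.card_pos, fun k hk φ hφ0 => ?_⟩
  letI := hk
  have hφm : φ (m₀ : ZBar) ≠ 0 := by
    intro h
    apply hφ0
    rw [Nat.cast_mul, map_mul, h, zero_mul]
  let Zm := Localization.Away (m₀ : ZBar)
  have hu1 : IsUnit (algebraMap ZBar QBar (m₀ : ZBar)) := by
    rw [isUnit_iff_ne_zero, map_natCast]
    exact_mod_cast hm₀.ne'
  let f₁ : Zm →+* QBar := IsLocalization.Away.lift (m₀ : ZBar) hu1
  let f₂ : Zm →+* k := IsLocalization.Away.lift (m₀ : ZBar) (isUnit_iff_ne_zero.2 hφm)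
  have hf₁ : ∀ z : ZBar, f₁ (algebraMap ZBar Zm z) = algebraMap ZBar QBar z :=
    fun z => IsLocalization.Away.lift_eq (m₀ : ZBar) hu1 z
  have hf₂ : ∀ z : ZBar, f₂ (algebraMap ZBar Zm z) = φ z :=
    fun z => IsLocalization.Away.lift_eq (m₀ : ZBar) _ z
  have hf₁inj : Function.Injective f₁ := by
    rw [injective_iff_map_eq_zero]
    intro x hx
    obtain ⟨⟨z, ⟨s, hs⟩⟩, hzs⟩ := IsLocalization.surj (Submonoid.powers (m₀ : ZBar)) x
    have h1 : f₁ (x * algebraMap ZBar Zm s) = f₁ (algebraMap ZBar Zm z) := by rw [hzs]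
    rw [map_mul, hx, zero_mul, hf₁] at h1
    have h2 : z = 0 := hinj (by rw [← h1, map_zero])
    have h3 : x * algebraMap ZBar Zm s = 0 := by rw [hzs, h2, map_zero]
    have h4 : IsUnit (algebraMap ZBar Zm s) := IsLocalization.map_units Zm ⟨s, hs⟩
    exact (h4.mul_left_eq_zero).1 h3
  have hent : ∀ (g : GQ) (a b : Fin n), ∃ y : Zm, f₁ y = (r g : Matrix (Fin n) (Fin n) QBar) a b := by
    intro g a b
    obtain ⟨z, hz⟩ := hden g a b
    refine ⟨IsLocalization.mk' Zm z (⟨(m₀ : ZBar), Submonoid.mem_powers _⟩ : Submonoid.powers (m₀ : ZBar)), ?_⟩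
    have h1 := IsLocalization.mk'_spec Zm z (⟨(m₀ : ZBar), Submonoid.mem_powers _⟩ : Submonoid.powers (m₀ : ZBar))
    have h2 := congrArg f₁ h1
    rw [map_mul, hf₁, hf₁, ← hz, map_natCast, mul_comm] at h2
    have h3 : (m₀ : QBar) ≠ 0 := by exact_mod_cast hm₀.ne'
    exact mul_left_cancel₀ h3 h2
  choose M' hM' using hent
  let M : GQ → Matrix (Fin n) (Fin n) Zm := fun g => Matrix.of (M' g)
  have hM : ∀ g, (M g).map f₁ = (r g : Matrix (Fin n) (Fin n) QBar) := by
    intro g
    ext a b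
    exact hM' g a b
  have hmapinj : Function.Injective fun X : Matrix (Fin n) (Fin n) Zm => X.map f₁ :=
    Matrix.map_injective hf₁inj
  have hM1 : M 1 = 1 := by
    apply hmapinj
    show (M 1).map f₁ = (1 : Matrix (Fin n) (Fin n) Zm).map f₁
    rw [hM, map_one, Units.val_one, Matrix.map_one f₁ (map_zero f₁) (map_one f₁)]
  have hMmul : ∀ g h, M (g * h) = M g * M h := by
    intro g h
    apply hmapinj
    show (M (g * h)).map f₁ = (M g * M h).map f₁
    rw [Matrix.map_mul, hM, hM, hM, map_mul, Units.val_mul]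
  let r0 : GQ →* Matrix (Fin n) (Fin n) Zm := { toFun := M, map_one' := hM1, map_mul' := hMmul }
  let ρ : GQ →* GL (Fin n) k :=
    (Matrix.GeneralLinearGroup.map f₂).comp (MonoidHom.toHomUnits r0)
  have hρ : ∀ g, (ρ g : Matrix (Fin n) (Fin n) k) = (M g).map f₂ := fun g => rfl
  have hker : r.ker ≤ ρ.ker := by
    intro g hg
    rw [MonoidHom.mem_ker] at hg ⊢
    apply Units.ext
    have h1 : M g = 1 := by
      apply hmapinj
      show (M g).map f₁ = (1 : Matrix (Fin n) (Fin n) Zm).map f₁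
      rw [hM, hg, Units.val_one, Matrix.map_one f₁ (map_zero f₁) (map_one f₁)]
    rw [hρ, h1, Units.val_one, Matrix.map_one f₂ (map_zero f₂) (map_one f₂)]
  have hidx : ρ.ker.index ∣ r.ker.index := Subgroup.index_dvd_of_le hker
  have hpos : r.ker.index ≠ 0 := (Nat.card_pos (α := GQ ⧸ r.ker)).ne'
  have hfin2 : Finite (GQ ⧸ ρ.ker) := by
    have h1 : ρ.ker.index ≠ 0 := fun h0 => hpos (by rw [h0] at hidx; exact zero_dvd_iff.1 hidx)
    exact Nat.finite_of_card_ne_zero h1
  refine ⟨ρ, hker, maschke ρ hfin2 ?_, ?_⟩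
  · intro h0
    apply hφ0
    obtain ⟨b, hb⟩ := hidx
    have hb' : Nat.card (GQ ⧸ r.ker) = Nat.card (GQ ⧸ ρ.ker) * b := hb
    rw [hb', Nat.cast_mul, map_mul, Nat.cast_mul, map_mul, map_natCast φ (Nat.card (GQ ⧸ ρ.ker)), h0, zero_mul, mul_zero]
  · intro g q hq
    have h1 : ev (algebraMap ZBar Zm) (M g) q = 0 := by
      apply hf₁inj
      rw [map_zero, ev_map, hM]
      have : f₁.comp (algebraMap ZBar Zm) = algebraMap ZBar QBar := RingHom.ext hf₁
      rw [this]
      exact hq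
    have h2 := congrArg f₂ h1
    rw [map_zero, ev_map] at h2
    have h3 : f₂.comp (algebraMap ZBar Zm) = φ := RingHom.ext hf₂
    rw [h3] at h2
    rw [hρ]
    exact h2

end Pool.Agent.Q92.DS
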