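import Pool.Agent.Q92.DS.RedG

/-! Uniformity: finite groups of bounded order and finitely many conditions. -/

set_option autoImplicit false
set_option linter.all false

namespace Pool.Agent.Q92.DS

open Polynomial Filter NumberField Pool.Agent.Y800

section uniform

variable {R : Type} [CommRing R] {L : Type}
  (Res : L → ∀ (k : Type) [Field k], (R →+* k) → Prop)
  {n : ℕ} {T : Type} (Eqs : T → Set (MvPolynomial (Fin n × Fin n) R))

/-- There is a faithful representation of `H` over a residue field at `l` which satisfies the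
conditions `Eqs (F h)`. -/
def Bar (H : Type) [Group H] (F : H → T) (l : L) : Prop :=
  ∃ (k : Type) (_ : Field k) (φ : R →+* k) (r : H →* GL (Fin n) k), Res l k φ ∧
    Function.Injective r ∧ ∀ h, ∀ q ∈ Eqs (F h), ev φ (r h : Matrix (Fin n) (Fin n) k) q = 0

theorem bar_iso {H H' : Type} [Group H] [Group H'] (e : H ≃* H') (F : H → T) (l : L)
    (h : Bar Res Eqs H F l) : Bar Res Eqs H' (F ∘ e.symm) l := by
  obtain ⟨k, hk, φ, r, h1, h2, h3⟩ := h
  exact ⟨k, hk, φ, r.comp e.symm.toMonoidHom, h1, h2.comp e.symm.injective, fun h q hq => h3 _ q hq⟩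

theorem bar_iso_iff {H H' : Type} [Group H] [Group H'] (e : H ≃* H') (F : H → T) (l : L) :
    Bar Res Eqs H' (F ∘ e.symm) l ↔ Bar Res Eqs H F l := by
  refine ⟨fun h => ?_, bar_iso Res Eqs e F l⟩
  have := bar_iso Res Eqs e.symm (F ∘ e.symm) l h
  have e1 : (F ∘ e.symm) ∘ e.symm.symm = F := by
    funext x
    simp
  rwa [e1] at this

theorem lift_of_infinite [IsDomain R]
    (hRes : ∀ d : R, d ≠ 0 → {l : L | ∃ (k : Type) (_ : Field k) (φ : R →+* k),
      Res l k φ ∧ φ d = 0}.Finite)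
    {H : Type} [Group H] [Finite H] (F : H → T) (hinf : {l | Bar Res Eqs H F l}.Infinite)
    {Ω : Type*} [Field Ω] [IsAlgClosed Ω] (ι : R →+* Ω) (hι : Function.Injective ι) :
    ∃ r : H →* GL (Fin n) Ω, ∀ h, ∀ q ∈ Eqs (F h), ev ι (r h : Matrix (Fin n) (Fin n) Ω) q = 0 := by
  classical
  letI : TopologicalSpace H := ⊥
  haveI : DiscreteTopology H := ⟨rfl⟩
  set I := {l | Bar Res Eqs H F l} with hI
  haveI : Infinite I := hinf.to_subtype
  have hdata : ∀ i : I, Bar Res Eqs H F i.1 := fun i => i.2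
  choose k fld φ ρ h1 h2 h3 using hdata
  letI := fld
  have hφ : ∀ d : R, d ≠ 0 → ∀ᶠ i in cofinite, φ i d ≠ 0 := by
    intro d hd
    rw [eventually_cofinite]
    refine ((hRes d hd).preimage (f := fun l : I => l.1) Subtype.val_injective.injOn).subset ?_
    intro l hl
    exact ⟨k l, fld l, φ l, h1 l, not_not.1 hl⟩
  have hk : ∀ᶠ i in cofinite, (ρ i).ker = (⊥ : Subgroup H) :=
    Eventually.of_forall fun i => (MonoidHom.ker_eq_bot_iff _).2 (h2 i)
  obtain ⟨r, -, hr⟩ := exists_rep φ hφ ρ (⊥ : Subgroup H) (isOpen_discrete _) hk ι hι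
  exact ⟨r, fun h q hq => hr h q (Eventually.of_forall fun i => h3 i h q hq)⟩

/-- a set with `m` elements, without structure -/
def Pt (m : ℕ) : Type := Fin m

instance (m : ℕ) : Finite (Pt m) := inferInstanceAs (Finite (Fin m))

theorem finite_group (m : ℕ) : Finite (Group (Pt m)) := by
  refine Finite.of_injective (fun g : Group (Pt m) => (g.mul : Pt m → Pt m → Pt m)) ?_
  intro g g' h
  exact Group.ext h

/-- finite groups of order at most `M` on initial segments, with conditions -/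
def Idx (M : ℕ) (T : Type) : Type := Σ m : Fin (M + 1), Group (Pt m) × (Pt m → T)

theorem finite_idx (M : ℕ) (T : Type) [Finite T] : Finite (Idx M T) := by
  unfold Idx
  haveI : ∀ m : Fin (M + 1), Finite (Group (Pt m)) := fun m => finite_group m
  infer_instance

/-- every finite group of order at most `M` occurs -/
theorem exists_idx {M : ℕ} {H : Type} [Group H] [Finite H] (hM : Nat.card H ≤ M) :
    ∃ (m : Fin (M + 1)) (g : Group (Pt m)), Nonempty (letI := g; H ≃* Pt m) := by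
  have e : H ≃ Pt (Nat.card H) := Finite.equivFin H
  refine ⟨⟨Nat.card H, by omega⟩, Equiv.group e.symm, ?_⟩
  letI := Equiv.group e.symm
  exact ⟨(Equiv.mulEquiv e.symm).symm⟩

theorem uniform [Finite T] (M : ℕ) : ∃ B : Set L, B.Finite ∧
    ∀ (H : Type) [Group H] [Finite H], Nat.card H ≤ M → ∀ (F : H → T) (l : L), l ∉ B →
      Bar Res Eqs H F l → {l | Bar Res Eqs H F l}.Infinite := by
  classical
  haveI := finite_idx M T
  let S : Idx M T → Set L := fun x => letI := x.2.1; {l | Bar Res Eqs (Pt x.1) x.2.2 l}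
  refine ⟨⋃ x : {x : Idx M T // (S x).Finite}, S x.1, Set.finite_iUnion fun x => x.2, ?_⟩
  intro H _ _ hM F l hl hbar
  obtain ⟨m, g, ⟨e⟩⟩ := exists_idx hM
  letI := g
  have hset : S ⟨m, g, F ∘ e.symm⟩ = {l | Bar Res Eqs H F l} := by
    ext l'
    exact bar_iso_iff Res Eqs e F l'
  rw [← hset]
  intro hfin
  apply hl
  rw [Set.mem_iUnion]
  refine ⟨⟨⟨m, g, F ∘ e.symm⟩, hfin⟩, ?_⟩
  show l ∈ S ⟨m, g, F ∘ e.symm⟩
  rw [hset]
  exact hbar

end uniform

section red

variable {n : ℕ} {T : Type} (Eqs : T → Set (MvPolynomial (Fin n × Fin n) ZBar))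

/-- uniform reduction -/
theorem uniform_red [Finite T] (M : ℕ) : ∃ m : ℕ, 0 < m ∧
    ∀ (H : Type) [Group H] [Finite H], Nat.card H ≤ M → ∀ (F : H → T),
      (∃ r : H →* GL (Fin n) QBar, ∀ h, ∀ q ∈ Eqs (F h),
        ev (algebraMap ZBar QBar) (r h : Matrix (Fin n) (Fin n) QBar) q = 0) →
      ∀ (k : Type) [Field k] (φ : ZBar →+* k), φ (m : ZBar) ≠ 0 →
        ∃ ρ : H →* GL (Fin n) k, IsSemisimpleRep ρ ∧
          ∀ h, ∀ q ∈ Eqs (F h), ev φ (ρ h : Matrix (Fin n) (Fin n) k) q = 0 := by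
  classical
  haveI := finite_idx M T
  letI := Fintype.ofFinite (Idx M T)
  have key : ∀ x : Idx M T, ∃ m : ℕ, 0 < m ∧ (letI := x.2.1;
      (∃ r : Pt x.1 →* GL (Fin n) QBar, ∀ h, ∀ q ∈ Eqs (x.2.2 h),
        ev (algebraMap ZBar QBar) (r h : Matrix (Fin n) (Fin n) QBar) q = 0) →
      ∀ (k : Type) [Field k] (φ : ZBar →+* k), φ (m : ZBar) ≠ 0 →
        ∃ ρ : Pt x.1 →* GL (Fin n) k, IsSemisimpleRep ρ ∧
          ∀ h, ∀ q ∈ Eqs (x.2.2 h), ev φ (ρ h : Matrix (Fin n) (Fin n) k) q = 0) := by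
    rintro ⟨m, g, F⟩
    letI := g
    by_cases h : ∃ r : Pt m →* GL (Fin n) QBar, ∀ h, ∀ q ∈ Eqs (F h),
        ev (algebraMap ZBar QBar) (r h : Matrix (Fin n) (Fin n) QBar) q = 0
    · obtain ⟨r, hr⟩ := h
      obtain ⟨m₁, hm₁, hred⟩ := reduceG r inferInstance
      refine ⟨m₁, hm₁, fun _ k _ φ hφ => ?_⟩
      obtain ⟨ρ, h1, h2, h3⟩ := hred k inferInstance φ hφ
      exact ⟨ρ, h2, fun h q hq => h3 h q (hr h q hq)⟩
    · exact ⟨1, one_pos, fun h' => absurd h' h⟩
  choose m hm hred using key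
  refine ⟨∏ x : Idx M T, m x, Finset.prod_pos fun x _ => hm x, ?_⟩
  intro H _ _ hM F hr k _ φ hφ
  obtain ⟨m₀, g, ⟨e⟩⟩ := exists_idx hM
  letI := g
  obtain ⟨r, hr⟩ := hr
  let x : Idx M T := ⟨m₀, g, F ∘ e.symm⟩
  have hφx : φ (m x : ZBar) ≠ 0 := by
    intro h0
    apply hφ
    obtain ⟨b, hb⟩ := Finset.dvd_prod_of_mem m (Finset.mem_univ x)
    rw [hb, Nat.cast_mul, map_mul, h0, zero_mul]
  obtain ⟨ρ, h1, h2⟩ := hred x ⟨r.comp e.symm.toMonoidHom, fun h q hq => hr _ q hq⟩ k φ hφx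
  refine ⟨ρ.comp e.toMonoidHom, ?_, ?_⟩
  · intro W hW
    obtain ⟨W', hW', hc⟩ := h1 W (fun g w hw => by
      have := hW (e.symm g) w hw
      simpa using this)
    exact ⟨W', fun g w hw => hW' (e g) w hw, hc⟩
  · intro h q hq
    refine h2 (e h) q ?_
    show q ∈ Eqs (F (e.symm (e h)))
    rw [MulEquiv.symm_apply_apply]
    exact hq

end red

end Pool.Agent.Q92.DS
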